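import Pool.Agent.TH214.Q.Grp

/-! Decomposition into eigenvectors and averages for finite abelian groups of automorphisms. -/

set_option autoImplicit false
set_option linter.unusedVariables false
set_option linter.unusedSectionVars false

universe u

open Polynomial Pool.Agent.W558 Pool.Agent.W558.WT

namespace Pool.Agent.TH214.Q

section eig

variable {k K : Type u} [Field k] [Field K] [Algebra k K] {G : Type} [CommGroup G]
  (ρ : G →* (K ≃ₐ[k] K)) {m : ℕ}

omit m in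
lemma mapp (g h : G) (a : K) : ρ (g * h) a = ρ g (ρ h a) := by
  rw [map_mul]; rfl

/-- The projection to an eigenspace. -/
noncomputable def prj (ξ : k) (m : ℕ) (g : G) (a : ℕ) (v : K) : K :=
  (m : k)⁻¹ • ∑ j ∈ Finset.range m, ξ ^ (a * j) • ρ (g ^ j) v

lemma prj_eig {ζ : k} (hζ : ζ ^ m = 1) (hm : 0 < m) {g : G} (hg : g ^ m = 1) (a : ℕ) (v : K) :
    ρ g (prj ρ ζ⁻¹ m g a v) = ζ ^ a • prj ρ ζ⁻¹ m g a v := by
  have hζ0 : ζ ≠ 0 := by
    rintro rfl
    rw [zero_pow hm.ne'] at hζ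
    exact zero_ne_one hζ
  unfold prj
  rw [map_smul, smul_comm (ζ ^ a) (m : k)⁻¹]
  congr 1
  rw [map_sum]
  have h1 : ∀ j ∈ Finset.range m, ρ g (ζ⁻¹ ^ (a * j) • ρ (g ^ j) v) =
      (fun j => ζ ^ a • ζ⁻¹ ^ (a * j) • ρ (g ^ j) v) (j + 1) := by
    intro j _
    change ρ g (ζ⁻¹ ^ (a * j) • ρ (g ^ j) v) = ζ ^ a • ζ⁻¹ ^ (a * (j + 1)) • ρ (g ^ (j + 1)) v
    rw [map_smul, pow_succ' g, mapp, smul_smul, mul_add, mul_one, pow_add, mul_comm (ζ ^ a),
      mul_assoc, ← mul_pow, inv_mul_cancel₀ hζ0, one_pow, mul_one]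
  rw [Finset.sum_congr rfl h1]
  refine (Pool.Agent.W191.WT.sum_cyc (fun j => ζ ^ a • ζ⁻¹ ^ (a * j) • ρ (g ^ j) v) m ?_).trans
    Finset.smul_sum.symm
  rw [hg, pow_zero, mul_zero, pow_zero, mul_comm a m, pow_mul, inv_pow, hζ, inv_one, one_pow]

lemma prj_sum {ζ : k} (hζ : IsPrimitiveRoot ζ m) (hm : (m : k) ≠ 0) (g : G) (v : K) :
    ∑ a ∈ Finset.range m, prj ρ ζ⁻¹ m g a v = v := by
  have hm0 : 0 < m := by
    rcases Nat.eq_zero_or_pos m with rfl | h
    · exact absurd Nat.cast_zero hm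
    · exact h
  unfold prj
  rw [← Finset.smul_sum, Finset.sum_comm]
  have h1 : ∀ j ∈ Finset.range m, j ≠ 0 →
      ∑ a ∈ Finset.range m, ζ⁻¹ ^ (a * j) • ρ (g ^ j) v = 0 := by
    intro j hj hj0
    rw [← Finset.sum_smul]
    have h2 : ∑ a ∈ Finset.range m, ζ⁻¹ ^ (a * j) = ∑ a ∈ Finset.range m, (ζ⁻¹ ^ j) ^ a :=
      Finset.sum_congr rfl fun a _ => by rw [mul_comm, pow_mul]
    have h3 : ζ⁻¹ ^ j ≠ 1 := hζ.inv.pow_ne_one_of_pos_of_lt hj0 (Finset.mem_range.1 hj)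
    have h4 : (∑ a ∈ Finset.range m, (ζ⁻¹ ^ j) ^ a) * (ζ⁻¹ ^ j - 1) = 0 := by
      rw [geom_sum_mul, ← pow_mul, mul_comm j m, pow_mul, hζ.inv.pow_eq_one, one_pow, sub_self]
    rw [h2, (mul_eq_zero.1 h4).resolve_right (sub_ne_zero.2 h3), zero_smul]
  rw [Finset.sum_eq_single 0 h1 (fun h => absurd (Finset.mem_range.2 hm0) h)]
  have h5 : ∀ a ∈ Finset.range m, ζ⁻¹ ^ (a * 0) • ρ (g ^ 0) v = v := by
    intro a _
    rw [mul_zero, pow_zero, pow_zero, map_one, one_smul]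
    rfl
  rw [Finset.sum_congr rfl h5, Finset.sum_const, Finset.card_range,
    ← Nat.cast_smul_eq_nsmul k, smul_smul, inv_mul_cancel₀ hm, one_smul]

lemma prj_comm {ξ : k} {g h : G} {c : k} {v : K} (hv : ρ h v = c • v) (a : ℕ) :
    ρ h (prj ρ ξ m g a v) = c • prj ρ ξ m g a v := by
  unfold prj
  rw [map_smul, smul_comm c (m : k)⁻¹]
  congr 1
  rw [map_sum, Finset.smul_sum]
  refine Finset.sum_congr rfl fun j _ => ?_
  rw [map_smul, ← mapp, mul_comm h, mapp, hv, map_smul, smul_comm]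

/-- Decomposition into eigenvectors. -/
lemma eig_dec {ζ : k} (hζ : IsPrimitiveRoot ζ m) (hm : (m : k) ≠ 0) (P : Set G) (S : Finset G)
    (hS : ∀ g ∈ S, g ^ m = 1) (y : K) (hy : ∀ g ∈ P, ρ g y = y) :
    y ∈ AddSubmonoid.closure {v : K | (∀ g ∈ P, ρ g v = v) ∧
      ∀ g ∈ S, ∃ c : k, c ^ m = 1 ∧ ρ g v = c • v} := by
  classical
  have hm0 : 0 < m := by
    rcases Nat.eq_zero_or_pos m with rfl | h
    · exact absurd Nat.cast_zero hm
    · exact h
  induction S using Finset.induction_on with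
  | empty =>
    exact AddSubmonoid.subset_closure ⟨hy, fun g hg => absurd hg (Finset.notMem_empty g)⟩
  | insert g S hgS ih =>
    have h1 := ih fun h hh => hS h (Finset.mem_insert_of_mem hh)
    have hg : g ^ m = 1 := hS g (Finset.mem_insert_self g S)
    refine (AddSubmonoid.closure_le.2 ?_) h1
    rintro v ⟨hv1, hv2⟩
    rw [SetLike.mem_coe, ← prj_sum ρ hζ hm g v]
    refine sum_mem fun a _ => AddSubmonoid.subset_closure ⟨?_, ?_⟩
    · intro h hh
      have h2 := prj_comm ρ (ξ := ζ⁻¹) (g := g) (m := m) (h := h) (c := 1) (v := v)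
        (by rw [one_smul]; exact hv1 h hh) a
      rw [one_smul] at h2
      exact h2
    · intro h hh
      rcases Finset.mem_insert.1 hh with rfl | hh
      · exact ⟨ζ ^ a, by rw [← pow_mul, mul_comm, pow_mul, hζ.pow_eq_one, one_pow],
          prj_eig ρ hζ.pow_eq_one hm0 hg a v⟩
      · obtain ⟨c, hc, hcv⟩ := hv2 h hh
        exact ⟨c, hc, prj_comm ρ hcv a⟩

end eig

section avg

variable {k K : Type u} [Field k] [Field K] [Algebra k K] {G : Type} [CommGroup G]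
  (ρ : G →* (K ≃ₐ[k] K)) (P : Subgroup G) [Fintype P]

/-- The average over a subgroup. -/
noncomputable def avg (v : K) : K := (Fintype.card P : k)⁻¹ • ∑ g : P, ρ g v

variable {ρ P}

lemma avg_add (v w : K) : avg ρ P (v + w) = avg ρ P v + avg ρ P w := by
  unfold avg
  rw [← smul_add, ← Finset.sum_add_distrib]
  simp only [map_add]

lemma avg_zero : avg ρ P (0 : K) = 0 := by
  unfold avg
  simp only [map_zero, Finset.sum_const_zero, smul_zero]

lemma avg_smul (c : k) (v : K) : avg ρ P (c • v) = c • avg ρ P v := by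
  unfold avg
  rw [smul_comm c]
  simp only [map_smul, Finset.smul_sum]

lemma avg_of_fixed (hP : (Fintype.card P : k) ≠ 0) {v : K} (hv : ∀ g ∈ P, ρ g v = v) :
    avg ρ P v = v := by
  unfold avg
  rw [Finset.sum_congr rfl fun (g : P) _ => hv g g.2, Finset.sum_const, Finset.card_univ,
    ← Nat.cast_smul_eq_nsmul k, smul_smul, inv_mul_cancel₀ hP, one_smul]

lemma avg_fixed (v : K) (h : G) (hh : h ∈ P) : ρ h (avg ρ P v) = avg ρ P v := by
  unfold avg
  rw [map_smul, map_sum]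
  congr 1
  refine Fintype.sum_equiv (Equiv.mulLeft (⟨h, hh⟩ : P)) _ _ fun g => ?_
  rw [← mapp]
  rfl

lemma avg_app (v : K) (h : G) (hh : h ∈ P) : avg ρ P (ρ h v) = avg ρ P v := by
  unfold avg
  congr 1
  refine Fintype.sum_equiv (Equiv.mulRight (⟨h, hh⟩ : P)) _ _ fun g => ?_
  rw [← mapp]
  rfl

lemma avg_comm (v : K) (h : G) : ρ h (avg ρ P v) = avg ρ P (ρ h v) := by
  unfold avg
  rw [map_smul, map_sum]
  congr 1
  refine Finset.sum_congr rfl fun g _ => ?_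
  rw [← mapp, ← mapp, mul_comm]

lemma avg_eig (hP : (Fintype.card P : k) ≠ 0) {v : K}
    (hv : ∀ g ∈ P, ∃ c : k, ρ g v = c • v) : avg ρ P v = 0 ∨ ((∀ g ∈ P, ρ g v = v) ∧ avg ρ P v = v) := by
  by_cases h : ∀ g ∈ P, ρ g v = v
  · exact Or.inr ⟨h, avg_of_fixed hP h⟩
  · push Not at h
    obtain ⟨g, hg, hne⟩ := h
    obtain ⟨c, hc⟩ := hv g hg
    have h1 := avg_app (ρ := ρ) (P := P) v g hg
    rw [hc, avg_smul] at h1
    have h2 : (c - 1) • avg ρ P v = 0 := by
      rw [sub_smul, one_smul, h1, sub_self]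
    rcases smul_eq_zero.1 h2 with h3 | h3
    · exfalso
      apply hne
      rw [hc, sub_eq_zero.1 h3, one_smul]
    · exact Or.inl h3

end avg

section grp

variable {G : Type} [CommGroup G] {p m : ℕ}

lemma exists_split (hpm : Nat.Coprime p m) (hG : ∀ g : G, g ^ (p * m) = 1) (g : G) :
    ∃ a b : G, a ^ m = 1 ∧ b ^ p = 1 ∧ g = a * b := by
  have h1 : (p : ℤ) * Nat.gcdA p m + (m : ℤ) * Nat.gcdB p m = 1 := by
    rw [← Nat.gcd_eq_gcd_ab, hpm.gcd_eq_one, Nat.cast_one]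
  have h2 : g ^ ((p : ℤ) * m) = 1 := by
    rw [← Nat.cast_mul, zpow_natCast]
    exact hG g
  refine ⟨g ^ ((p : ℤ) * Nat.gcdA p m), g ^ ((m : ℤ) * Nat.gcdB p m), ?_, ?_, ?_⟩
  · rw [← zpow_natCast, ← zpow_mul, mul_assoc, mul_comm (Nat.gcdA p m), ← mul_assoc, zpow_mul, h2,
      one_zpow]
  · rw [← zpow_natCast, ← zpow_mul, mul_comm, ← mul_assoc, zpow_mul, h2, one_zpow]
  · rw [← zpow_add, h1, zpow_one]

/-- The elements whose `m`-th power is `1`. -/
def tor (G : Type) [CommGroup G] (m : ℕ) : Subgroup G where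
  carrier := {g | g ^ m = 1}
  mul_mem' := by
    intro a b ha hb
    change (a * b) ^ m = 1
    rw [mul_pow, show a ^ m = 1 from ha, show b ^ m = 1 from hb, one_mul]
  one_mem' := one_pow m
  inv_mem' := by
    intro a ha
    change a⁻¹ ^ m = 1
    rw [inv_pow, show a ^ m = 1 from ha, inv_one]

lemma card_tor_ne (k : Type u) [Field k] (hp : p.Prime) [CharP k p] (hm : (m : k) ≠ 0)
    [Fintype (tor G m)] : (Fintype.card (tor G m) : k) ≠ 0 := by
  have hf : Fact p.Prime := ⟨hp⟩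
  intro h
  rw [CharP.cast_eq_zero_iff k p] at h
  obtain ⟨x, hx⟩ := exists_prime_orderOf_dvd_card p h
  have h1 : x ^ m = 1 := Subtype.ext (by
    rw [Subgroup.coe_pow]
    exact x.2)
  have h2 : p ∣ m := by
    rw [← hx]
    exact orderOf_dvd_of_pow_eq_one h1
  exact hm ((CharP.cast_eq_zero_iff k p m).2 h2)

end grp

section as

variable {k K : Type u} [Field k] [Field K] [Algebra k K] {G : Type} [CommGroup G] [Finite G]
  (ρ : G →* (K ≃ₐ[k] K)) {m : ℕ}

lemma zc_fixed (p : ℕ) [CharP K p] (s : K ≃ₐ[k] K) (c : ZMod p) : s (zc p K c) = zc p K c :=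
  congrArg (fun φ : ZMod p →+* K => φ c) (RingHom.ext_zmod ((s : K →+* K).comp (zc p K)) (zc p K))

/-- The Artin-Schreier generator. -/
theorem exists_asg (p : ℕ) [Fact p.Prime] [CharP k p] [CharP K p] (hm : (m : k) ≠ 0)
    (hG : ∀ g : G, g ^ (p * m) = 1)
    (hcyc : ∀ g g' : G, g ^ p = 1 → g' ^ p = 1 → ρ g ≠ 1 → ∃ a : ℕ, ρ g' = ρ g ^ a) :
    ∃ (z : K) (ε : G → ZMod p), (∀ g, ρ g z = z + zc p K (ε g)) ∧
      ∀ M : IntermediateField k K, z ∈ M → (∀ y, (∀ g, g ^ p = 1 → ρ g y = y) → y ∈ M) →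
        ∀ y, y ∈ M := by
  classical
  have hp : p.Prime := Fact.out
  have hpm : Nat.Coprime p m := by
    rw [Nat.Prime.coprime_iff_not_dvd hp]
    intro h
    exact hm ((CharP.cast_eq_zero_iff k p m).2 h)
  by_cases htriv : ∀ g : G, g ^ p = 1 → ρ g = 1
  · refine ⟨0, 0, fun g => ?_, fun M _ hM y => hM y fun g hg => ?_⟩
    · rw [map_zero, Pi.zero_apply, map_zero, add_zero]
    · rw [htriv g hg]; rfl
  · push Not at htriv
    obtain ⟨g0, hg0, hne⟩ := htriv
    have hs : ρ g0 ^ p = 1 := by rw [← map_pow, hg0, map_one]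
    obtain ⟨z0, hz0⟩ := Pool.Agent.W191.WT.exists_as (ρ g0) p hp hs hne
    have hft : Fintype (tor G m) := Fintype.ofFinite _
    have hN := card_tor_ne (G := G) k hp hm
    let z := avg ρ (tor G m) z0
    have hz : ρ g0 z = z + 1 := by
      change ρ g0 (avg ρ (tor G m) z0) = avg ρ (tor G m) z0 + 1
      rw [avg_comm, hz0, avg_add, avg_of_fixed hN fun g _ => map_one _]
    have hz' : ∀ g : G, ∃ c : ZMod p, ρ g z = z + zc p K c := by
      intro g
      obtain ⟨a, b, ha, hb, rfl⟩ := exists_split hpm hG g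
      obtain ⟨j, hj⟩ := hcyc g0 b hg0 hb hne
      refine ⟨j, ?_⟩
      rw [mapp, hj, Pool.Agent.W191.WT.pow_as _ _ hz, map_add, map_natCast, map_natCast]
      congr 1
      exact avg_fixed z0 a ha
    choose ε hε using hz'
    refine ⟨z, ε, hε, fun M hzM hM y => ?_⟩
    refine Pool.Agent.W191.WT.mem_of_fixed (ρ g0) p hp hs z hz M hzM (fun y hy => hM y fun g hg => ?_) y
    obtain ⟨j, hj⟩ := hcyc g0 g hg0 hg hne
    rw [hj]
    clear hj
    induction j with
    | zero => rfl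
    | succ j ih => rw [Pool.Agent.W191.WT.pow_succ_apply', ih, hy]

end as

end Pool.Agent.TH214.Q
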