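import Pool.Agent.W435.WT.Gal
import Pool.Agent.TH214.Q.Eig

/-! Artin-Schreier extensions: the fixed field. -/

set_option autoImplicit false
set_option linter.unusedVariables false
set_option linter.unusedSectionVars false

universe u

open Polynomial Pool.Agent.W558 Pool.Agent.W435.WT.Gal

namespace Pool.Agent.TH214.Q

/-- The fixed elements of an elementary abelian extension of exponent `p`. -/
theorem gal_top (p : ℕ) [Fact p.Prime] {k E' E : Type u} [Field k] [Field E'] [Field E]
    [Algebra k E'] [Algebra k E] [CharP E' p] [CharP E p] {n : ℕ} (ι : E' →ₐ[k] E)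
    (M : IntermediateField k E') (z : Fin n → E') (hz : ∀ i, z i ^ p - z i ∈ M)
    (hadj : ∀ M' : IntermediateField k E', M ≤ M' → (∀ i, z i ∈ M') → M' = ⊤)
    (H : AddSubgroup (Fin n → ZMod p))
    (hM : ∀ c : Fin n → ZMod p, (∀ h ∈ H, ∑ i, c i * h i = 0) → ∑ i, zc p E' (c i) * z i ∈ M)
    (y : E') (hτ : ∀ h ∈ H, ∃ τ : E' →ₐ[k] E, (∀ x ∈ M, τ x = ι x) ∧
      (∀ i, τ (z i) = ι (z i) + zc p E (h i)) ∧ τ y = ι y) : y ∈ M := by
  classical
  -- E' = M(z)
  have hadj' : IntermediateField.adjoin M (Set.range z) = ⊤ := by
    have h0 : ∀ i, z i ∈ IntermediateField.adjoin M (Set.range z) := fun i =>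
      IntermediateField.subset_adjoin M (Set.range z) (Set.mem_range_self i)
    have h1 := hadj ((IntermediateField.adjoin M (Set.range z)).restrictScalars k)
      (fun x hx => (IntermediateField.mem_restrictScalars _).2
        ((IntermediateField.adjoin M (Set.range z)).algebraMap_mem (⟨x, hx⟩ : M)))
      (fun i => (IntermediateField.mem_restrictScalars _).2 (h0 i))
    rw [IntermediateField.restrictScalars_eq_top_iff] at h1
    exact h1
  have hchar : CharP M p := ((algebraMap M E').charP_iff (algebraMap M E').injective p).2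
    inferInstance
  have haev : ∀ i, aeval (z i) (X ^ p - X - C (⟨z i ^ p - z i, hz i⟩ : M)) = 0 := by
    intro i
    simp only [map_sub, map_pow, aeval_X, aeval_C]
    exact sub_self _
  have hmonic : ∀ a : M, (X ^ p - X - C a : M[X]).Monic := by
    intro a
    have h1 : (X ^ p - X - C a : M[X]) = X ^ p - (X + C a) := by ring
    rw [h1]
    apply monic_X_pow_sub
    rw [degree_X_add_C]
    exact_mod_cast (Fact.out (p := p.Prime)).one_lt
  have hint : ∀ i, IsIntegral M (z i) := fun i => ⟨_, hmonic _, haev i⟩
  have hdvd : ∀ i, minpoly M (z i) ∣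
      (X ^ p - X - C (⟨z i ^ p - z i, hz i⟩ : M)) := fun i => minpoly.dvd _ _ (haev i)
  have hspl : ∀ x ∈ Set.range z, IsIntegral M x ∧
      ((minpoly M x).map (algebraMap M E')).Splits := by
    rintro _ ⟨i, rfl⟩
    refine ⟨hint i, ?_⟩
    have h1 : ((X ^ p - X - C (⟨z i ^ p - z i, hz i⟩ : M)).map (algebraMap M E')) =
        (X ^ p - X - C (z i ^ p - z i) : E'[X]) := by
      simp only [Polynomial.map_sub, Polynomial.map_pow, map_X, map_C]
      rfl
    have h2 : (X ^ p - X - C (z i ^ p - z i) : E'[X]) ≠ 0 := by
      intro h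
      have h3 := as_natDegree p (z i ^ p - z i)
      rw [h, natDegree_zero] at h3
      have := (Fact.out (p := p.Prime)).pos
      omega
    refine Polynomial.Splits.of_dvd (as_splits p (z i)) h2 ?_
    rw [← h1]
    exact Polynomial.map_dvd _ (hdvd i)
  have hnormal : Normal M E' := by
    rw [normal_iff]
    intro x
    have hx : x ∈ IntermediateField.adjoin M (Set.range z) := by rw [hadj']; trivial
    have halg : Algebra.IsIntegral M (IntermediateField.adjoin M (Set.range z)) :=
      IntermediateField.isAlgebraic_adjoin (fun x hx => (hspl x hx).1) |>.isIntegral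
    refine ⟨?_, IntermediateField.splits_of_mem_adjoin M E' hspl hx⟩
    have h1 := halg.isIntegral ⟨x, hx⟩
    exact h1.map (IntermediateField.adjoin M (Set.range z)).val
  have hsep : Algebra.IsSeparable M E' := by
    have h1 : Algebra.IsSeparable M (IntermediateField.adjoin M (Set.range z)) := by
      rw [IntermediateField.isSeparable_adjoin_iff_isSeparable]
      rintro _ ⟨i, rfl⟩
      exact (as_separable p _).of_dvd (hdvd i)
    rw [hadj'] at h1
    exact AlgEquiv.Algebra.isSeparable (IntermediateField.topEquiv (F := M) (E := E'))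
  have hgal : IsGalois M E' := IsGalois.mk
  have hbot : y ∈ (⊥ : IntermediateField M E') := by
    rw [InfiniteGalois.mem_bot_iff_fixed]
    intro ρ
    have hρK : ∀ x ∈ M, ρ x = x := fun x hx => ρ.commutes ⟨x, hx⟩
    have hγ : ∀ i, ∃ γ : ZMod p, zc p E' γ = ρ (z i) - z i := by
      intro i
      have h1 : (ρ (z i) - z i) ^ p = ρ (z i) - z i := by
        have h2 := hρK _ (hz i)
        rw [map_sub, map_pow] at h2
        rw [sub_pow_char]
        linear_combination h2
      exact exists_zc p h1
    choose γ hγ1 using hγ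
    have horth : ∀ c : Fin n → ZMod p, (∀ g ∈ H, ∑ i, c i * g i = 0) →
        ∑ i, c i * γ i = 0 := by
      intro c hc
      have h2 := hρK _ (hM c hc)
      rw [map_sum] at h2
      have h3 : ∀ i, ρ (zc p E' (c i) * z i) = zc p E' (c i) * z i + zc p E' (c i * γ i) := by
        intro i
        have h4 : ρ (zc p E' (c i)) = zc p E' (c i) := by
          have h5 : (ρ : E' →+* E').comp (zc p E') = zc p E' := RingHom.ext_zmod _ _
          exact RingHom.congr_fun h5 (c i)
        rw [map_mul, h4, map_mul (zc p E'), hγ1]
        ring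
      rw [Finset.sum_congr rfl (fun i _ => h3 i), Finset.sum_add_distrib] at h2
      have h5 : ∑ i, zc p E' (c i * γ i) = 0 := by
        linear_combination h2
      rw [← map_sum] at h5
      exact zc_inj p E' (by rw [h5, map_zero])
    have hγH : γ ∈ H := by
      by_contra hno
      have hnotin : γ ∉ AddSubgroup.toZModSubmodule p H := hno
      obtain ⟨f, hf1, hf2⟩ := Submodule.exists_dual_map_eq_bot_of_notMem hnotin inferInstance
      have hfx : ∀ x : Fin n → ZMod p, f x = ∑ i, f (fun j => if i = j then 1 else 0) * x i := by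
        intro x
        rw [LinearMap.pi_apply_eq_sum_univ f x]
        exact Finset.sum_congr rfl (fun i _ => by rw [smul_eq_mul, mul_comm])
      apply hf1
      rw [hfx]
      apply horth
      intro g hg
      rw [← hfx g]
      have h1 : f g ∈ (AddSubgroup.toZModSubmodule p H).map f :=
        Submodule.mem_map_of_mem hg
      rw [hf2] at h1
      exact h1
    obtain ⟨τ, hτ1, hτ2, hτ3⟩ := hτ γ hγH
    have hzcι : ∀ c : ZMod p, ι (zc p E' c) = zc p E c := fun c =>
      RingHom.congr_fun (RingHom.ext_zmod ((ι : E' →+* E).comp (zc p E')) (zc p E)) c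
    have hagree : ι (ρ y) = τ y := by
      have hyt : y ∈ IntermediateField.adjoin M (Set.range z) := by rw [hadj']; trivial
      clear hτ3 hτ
      induction hyt using IntermediateField.adjoin_induction with
      | mem x hx =>
        obtain ⟨i, rfl⟩ := hx
        rw [hτ2, ← hzcι, hγ1, map_sub]
        ring
      | algebraMap x =>
        have h1 := hρK x x.2
        have h2 := hτ1 x x.2
        exact (congrArg ι h1).trans h2.symm
      | add x y _ _ h1 h2 => rw [map_add, map_add, map_add, h1, h2]
      | inv x _ h1 => rw [map_inv₀, map_inv₀, map_inv₀, h1]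
      | mul x y _ _ h1 h2 => rw [map_mul, map_mul, map_mul, h1, h2]
    rw [hτ3] at hagree
    exact ι.injective hagree
  rw [IntermediateField.mem_bot] at hbot
  obtain ⟨a, rfl⟩ := hbot
  exact a.2

end Pool.Agent.TH214.Q
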