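import Pool.Agent.TH214.Q.Gal

/-! Artin-Schreier extensions: the fixed field. -/

set_option autoImplicit false
set_option linter.unusedVariables false
set_option linter.unusedSectionVars false

universe u

open Polynomial Pool.Agent.W558 Pool.Agent.W435.WT.Gal

namespace Pool.Agent.TH214.Q

/-- The fixed elements of an elementary abelian extension of exponent `p`. -/
theorem gal2 (p : ℕ) [Fact p.Prime] {k E : Type u} [Field k] [Field E]
    [Algebra k E] [CharP E p] {n : ℕ} (M M' : IntermediateField k E) (hMM : M ≤ M')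
    (z : Fin n → E) (hzM : ∀ i, z i ∈ M') (hz : ∀ i, z i ^ p - z i ∈ M)
    (hadj : ∀ M'' : IntermediateField k E, M ≤ M'' → (∀ i, z i ∈ M'') → M' ≤ M'')
    (H : AddSubgroup (Fin n → ZMod p))
    (hM : ∀ c : Fin n → ZMod p, (∀ h ∈ H, ∑ i, c i * h i = 0) → ∑ i, zc p E (c i) * z i ∈ M)
    (y : E) (hy : y ∈ M') (hτ : ∀ h ∈ H, ∃ τ : E ≃ₐ[k] E, (∀ x ∈ M, τ x = x) ∧
      (∀ i, τ (z i) = z i + zc p E (h i)) ∧ τ y = y) : y ∈ M := by
  have hcM' : CharP M' p := ((algebraMap M' E).charP_iff (algebraMap M' E).injective p).2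
    inferInstance
  have hzc : ∀ c : ZMod p, M'.val (zc p M' c) = zc p E c := fun c =>
    RingHom.congr_fun (RingHom.ext_zmod ((M'.val : M' →+* E).comp (zc p M')) (zc p E)) c
  have h1 := gal_top p M'.val (M.comap M'.val) (fun i => ⟨z i, hzM i⟩) hz (by
    intro N hN hzN
    rw [eq_top_iff]
    intro x _
    have h2 := hadj (N.map M'.val) (fun w hw => ⟨⟨w, hMM hw⟩, hN (x := ⟨w, hMM hw⟩) hw, rfl⟩)
      (fun i => ⟨_, hzN i, rfl⟩) x.2
    obtain ⟨x', hx', h3⟩ := h2
    have h4 : x' = x := Subtype.ext h3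
    rw [← h4]
    exact hx') H (by
    intro c hc
    change M'.val (∑ i, zc p M' (c i) * (⟨z i, hzM i⟩ : M')) ∈ M
    rw [map_sum]
    have h2 : ∀ i, M'.val (zc p M' (c i) * (⟨z i, hzM i⟩ : M')) = zc p E (c i) * z i := by
      intro i
      rw [map_mul, hzc]
      rfl
    rw [Finset.sum_congr rfl fun i _ => h2 i]
    exact hM c hc) ⟨y, hy⟩ (by
    intro h hh
    obtain ⟨τ, h2, h3, h4⟩ := hτ h hh
    exact ⟨(τ : E →ₐ[k] E).comp M'.val, fun x hx => h2 _ hx, fun i => h3 i, h4⟩)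
  exact h1

end Pool.Agent.TH214.Q
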