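import Pool.Agent.TH214.Q.Gal2

/-! Generators of the fixed field of a finite abelian group acting on a compositum. -/

set_option autoImplicit false
set_option linter.unusedVariables false
set_option linter.unusedSectionVars false

universe u

open Polynomial Pool.Agent.W558 Pool.Agent.W558.WT

namespace Pool.Agent.TH214.Q

section eps

variable {k K : Type u} [Field k] [Field K] [Algebra k K] {G : Type} [CommGroup G]
  {ρ : G →* (K ≃ₐ[k] K)} {p : ℕ} [Fact p.Prime] [CharP K p] {z : K} {ε : G → ZMod p}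

lemma eps_mul (h : ∀ g, ρ g z = z + zc p K (ε g)) (g g' : G) : ε (g * g') = ε g + ε g' := by
  have h1 := h (g * g')
  rw [mapp, h g', map_add, h g, zc_fixed, add_assoc] at h1
  have h2 := add_left_cancel h1
  apply (zc p K).injective
  rw [map_add, ← h2]

lemma eps_one (h : ∀ g, ρ g z = z + zc p K (ε g)) : ε 1 = 0 := by
  have h1 := eps_mul h 1 1
  rw [mul_one] at h1
  exact (add_eq_left.1 h1.symm)

lemma eps_inv (h : ∀ g, ρ g z = z + zc p K (ε g)) (g : G) : ε g⁻¹ = - ε g := by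
  have h1 := eps_mul h g g⁻¹
  rw [mul_inv_cancel, eps_one h] at h1
  exact (neg_eq_of_add_eq_zero_right h1.symm).symm

lemma eps_pow (h : ∀ g, ρ g z = z + zc p K (ε g)) (g : G) (j : ℕ) : ε (g ^ j) = j * ε g := by
  induction j with
  | zero => rw [pow_zero, eps_one h, Nat.cast_zero, zero_mul]
  | succ j ih => rw [pow_succ, eps_mul h, ih, Nat.cast_succ, add_mul, one_mul]

lemma eps_tor (h : ∀ g, ρ g z = z + zc p K (ε g)) {m : ℕ} (hm : Nat.Coprime p m) {g : G}
    (hg : g ^ m = 1) : ε g = 0 := by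
  have h1 := eps_pow h g m
  rw [hg, eps_one h] at h1
  rcases mul_eq_zero.1 h1.symm with h2 | h2
  · exfalso
    rw [ZMod.natCast_eq_zero_iff] at h2
    exact (Nat.Prime.coprime_iff_not_dvd Fact.out).1 hm h2
  · exact h2

end eps

section rep

variable {k K : Type u} [Field k] [Field K] [Algebra k K] {G : Type} [CommGroup G]
  (ρ : G →* (K ≃ₐ[k] K)) (p m : ℕ)

/-- Functions with values in the roots of unity. -/
abbrev XX (k : Type u) [Field k] (G : Type) (m : ℕ) : Type u := G → {x : k // x ^ m = 1}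

/-- Eigenvectors. -/
def IsEig (v : K) : Prop :=
  v ≠ 0 ∧ (∀ g, g ^ p = 1 → ρ g v = v) ∧ ∀ g, g ^ m = 1 → ∃ c : k, c ^ m = 1 ∧ ρ g v = c • v

open Classical in
/-- Representatives. -/
noncomputable def rep (χ : XX k G m) : K :=
  if h : ∃ v : K, v ≠ 0 ∧ (∀ g, g ^ p = 1 → ρ g v = v) ∧ ∀ g, g ^ m = 1 → ρ g v = (χ g : k) • v
  then h.choose else 1

lemma rep_ne (χ : XX k G m) : rep ρ p m χ ≠ 0 := by
  unfold rep
  split_ifs with h
  · exact h.choose_spec.1
  · exact one_ne_zero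

variable {ρ p m}

lemma fixed_of (hpm : Nat.Coprime p m) (hG : ∀ g : G, g ^ (p * m) = 1) {y : K}
    (h1 : ∀ g, g ^ p = 1 → ρ g y = y) (h2 : ∀ g, g ^ m = 1 → ρ g y = y) (g : G) : ρ g y = y := by
  obtain ⟨a, b, ha, hb, rfl⟩ := exists_split hpm hG g
  rw [mapp, h1 b hb, h2 a ha]

lemma rep_pow (hpm : Nat.Coprime p m) (hG : ∀ g : G, g ^ (p * m) = 1) (χ : XX k G m) (g : G) :
    ρ g (rep ρ p m χ ^ m) = rep ρ p m χ ^ m := by
  unfold rep
  split_ifs with h
  · obtain ⟨h0, h1, h2⟩ := h.choose_spec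
    refine fixed_of hpm hG ?_ ?_ g
    · intro g hg
      rw [map_pow, h1 g hg]
    · intro g hg
      rw [map_pow, h2 g hg, _root_.smul_pow, (χ g).2, one_smul]
  · rw [one_pow, map_one]

lemma rep_spec (hpm : Nat.Coprime p m) (hG : ∀ g : G, g ^ (p * m) = 1) {v : K}
    (hv : IsEig ρ p m v) : ∃ (χ : XX k G m) (c : K), c ≠ 0 ∧ (∀ g, ρ g c = c) ∧
      (∀ g, g ^ p = 1 → ρ g (rep ρ p m χ) = rep ρ p m χ) ∧ v = c * rep ρ p m χ := by
  classical
  obtain ⟨h0, h1, h2⟩ := hv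
  let χ : XX k G m := fun g => if h : g ^ m = 1 then ⟨(h2 g h).choose, (h2 g h).choose_spec.1⟩
    else ⟨1, one_pow m⟩
  have hχ : ∀ g, g ^ m = 1 → ρ g v = (χ g : k) • v := by
    intro g hg
    have h3 : (χ g : k) = (h2 g hg).choose := by
      change ((if h : g ^ m = 1 then ⟨(h2 g h).choose, (h2 g h).choose_spec.1⟩
        else ⟨1, one_pow m⟩ : {x : k // x ^ m = 1}) : k) = _
      rw [dif_pos hg]
    rw [h3]
    exact (h2 g hg).choose_spec.2
  have hex : ∃ v : K, v ≠ 0 ∧ (∀ g, g ^ p = 1 → ρ g v = v) ∧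
      ∀ g, g ^ m = 1 → ρ g v = (χ g : k) • v := ⟨v, h0, h1, hχ⟩
  have hr : rep ρ p m χ = hex.choose := dif_pos hex
  obtain ⟨r0, r1, r2⟩ := hex.choose_spec
  refine ⟨χ, v / rep ρ p m χ, div_ne_zero h0 (rep_ne ρ p m χ), ?_, ?_, ?_⟩
  · refine fixed_of hpm hG ?_ ?_
    · intro g hg
      rw [hr, map_div₀, h1 g hg, r1 g hg]
    · intro g hg
      have hc0 : (χ g : k) ≠ 0 := by
        intro h
        have h3 := hχ g hg
        rw [h, zero_smul] at h3
        exact h0 ((map_eq_zero (ρ g)).1 h3)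
      rw [hr, map_div₀, hχ g hg, r2 g hg, Algebra.smul_def, Algebra.smul_def,
        mul_div_mul_left _ _ ((_root_.map_ne_zero _).2 hc0)]
  · intro g hg
    rw [hr]
    exact r1 g hg
  · rw [div_mul_cancel₀ _ (rep_ne ρ p m χ)]

lemma isEig_one : IsEig ρ p m (1 : K) :=
  ⟨one_ne_zero, fun g _ => map_one _, fun g _ => ⟨1, one_pow m, by rw [map_one, one_smul]⟩⟩

lemma IsEig.mul {v w : K} (hv : IsEig ρ p m v) (hw : IsEig ρ p m w) : IsEig ρ p m (v * w) := by
  refine ⟨mul_ne_zero hv.1 hw.1, fun g hg => by rw [map_mul, hv.2.1 g hg, hw.2.1 g hg],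
    fun g hg => ?_⟩
  obtain ⟨c, hc, h1⟩ := hv.2.2 g hg
  obtain ⟨d, hd, h2⟩ := hw.2.2 g hg
  refine ⟨c * d, by rw [mul_pow, hc, hd, one_mul], ?_⟩
  rw [map_mul, h1, h2, smul_mul_smul_comm]

end rep

end Pool.Agent.TH214.Q
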