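import Pool.Agent.TH214.Q.Gen

/-! Generators of the fixed field of a finite abelian group acting on a compositum. -/

set_option autoImplicit false
set_option linter.unusedVariables false
set_option linter.unusedSectionVars false

universe u

open Polynomial Pool.Agent.W558 Pool.Agent.W558.WT

namespace Pool.Agent.TH214.Q

section gen

variable {k E : Type u} [Field k] [Field E] [Algebra k E] {G : Type} [CommGroup G] [Finite G]
  {n : ℕ} {K : Fin n → Type u} [∀ i, Field (K i)] [∀ i, Algebra k (K i)]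
  (ρ : ∀ i, G →* (K i ≃ₐ[k] K i)) (τ : G →* (E ≃ₐ[k] E)) (e : ∀ i, K i →ₐ[k] E)
  (p m : ℕ)

/-- Products of the representatives. -/
noncomputable def ww (χ : Fin n → XX k G m) : E := ∏ i, e i (rep (ρ i) p m (χ i))

/-- Products of eigenvectors. -/
def pure (N0 : IntermediateField k E) : Submonoid E where
  carrier := {x | ∃ c ∈ N0, ∃ v : ∀ i, K i, (∀ i, IsEig (ρ i) p m (v i)) ∧ x = c * ∏ i, e i (v i)}
  mul_mem' := by
    rintro x y ⟨c, hc, v, hv, rfl⟩ ⟨d, hd, w, hw, rfl⟩
    refine ⟨c * d, mul_mem hc hd, fun i => v i * w i, fun i => (hv i).mul (hw i), ?_⟩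
    simp only [map_mul, Finset.prod_mul_distrib]
    ring
  one_mem' := by
    refine ⟨1, one_mem _, fun i => 1, fun i => isEig_one, ?_⟩
    simp only [map_one, Finset.prod_const_one, mul_one]

variable {ρ τ e p m}

lemma mem_pure_of_N0 {N0 : IntermediateField k E} {x : E} (hx : x ∈ N0) :
    x ∈ pure ρ e p m N0 := by
  refine ⟨x, hx, fun i => 1, fun i => isEig_one, ?_⟩
  simp only [map_one, Finset.prod_const_one, mul_one]

lemma mem_pure_of_eig {N0 : IntermediateField k E} {i : Fin n} {v : K i}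
    (hv : IsEig (ρ i) p m v) : e i v ∈ pure ρ e p m N0 := by
  classical
  refine ⟨1, one_mem _, Function.update (fun i => (1 : K i)) i v, fun l => ?_, ?_⟩
  · by_cases hl : l = i
    · subst hl
      rw [Function.update_self]
      exact hv
    · rw [Function.update_of_ne hl]
      exact isEig_one
  · rw [one_mul, Finset.prod_eq_single i]
    · rw [Function.update_self]
    · intro l _ hl
      rw [Function.update_of_ne hl, map_one]
    · intro h
      exact absurd (Finset.mem_univ _) h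

lemma closure_top {ζ : k} (hζ : IsPrimitiveRoot ζ m) (hm : (m : k) ≠ 0)
    (L0 N0 : IntermediateField k E) (hLN : L0 ≤ N0)
    (halg : ∀ x : E, IsAlgebraic L0 x)
    (hgen : ∀ M : IntermediateField k E, (∀ i y, e i y ∈ M) → M = ⊤)
    (z : ∀ i, K i) (hzN : ∀ i, e i (z i) ∈ N0)
    (hzgen : ∀ i, ∀ M : IntermediateField k (K i), z i ∈ M →
      (∀ y, (∀ g, g ^ p = 1 → ρ i g y = y) → y ∈ M) → ∀ y, y ∈ M) (x : E) :
    x ∈ AddSubmonoid.closure (pure ρ e p m N0 : Set E) := by
  classical
  let P := pure ρ e p m N0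
  have hcoe : ∀ x, x ∈ P.subsemiringClosure ↔ x ∈ AddSubmonoid.closure (P : Set E) := by
    intro x
    rw [← SetLike.mem_coe, Submonoid.subsemiringClosure_coe]
    rfl
  have hPR : ∀ x ∈ P, x ∈ P.subsemiringClosure := fun x hx =>
    (hcoe x).2 (AddSubmonoid.subset_closure hx)
  let R : Subalgebra L0 E :=
    { P.subsemiringClosure with
      algebraMap_mem' := fun c => hPR _ (mem_pure_of_N0 (hLN c.2)) }
  let RF : IntermediateField L0 E := R.toIntermediateField fun x hx =>
    R.inv_mem_of_algebraic (x := ⟨x, hx⟩) (halg x)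
  have hRF : ∀ x, x ∈ RF ↔ x ∈ P.subsemiringClosure := fun x => Iff.rfl
  let RK : IntermediateField k E := RF.restrictScalars k
  have hRK : ∀ x, x ∈ RK ↔ x ∈ P.subsemiringClosure := fun x => by
    rw [← hRF]
    exact IntermediateField.mem_restrictScalars _
  have h1 : ∀ i y, e i y ∈ RK := by
    intro i y
    refine hzgen i (RK.comap (e i)) ?_ ?_ y
    · change e i (z i) ∈ RK
      rw [hRK]
      exact hPR _ (mem_pure_of_N0 (hzN i))
    · intro y hy
      have h2 := eig_dec (ρ i) hζ hm {g | g ^ p = 1} (Set.toFinite {g : G | g ^ m = 1}).toFinset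
        (fun g hg => by simpa using hg) y hy
      change e i y ∈ RK
      clear hy
      induction h2 using AddSubmonoid.closure_induction with
      | mem v hv =>
        by_cases hv0 : v = 0
        · rw [hv0, map_zero]
          exact zero_mem _
        · rw [hRK]
          refine hPR _ (mem_pure_of_eig ⟨hv0, hv.1, fun g hg => hv.2 g (by simpa using hg)⟩)
      | zero =>
        rw [map_zero]
        exact zero_mem _
      | add v w _ _ h3 h4 =>
        rw [map_add]
        exact add_mem h3 h4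
  have h2 := hgen RK h1
  have h3 : x ∈ RK := by rw [h2]; trivial
  rw [← hcoe]
  exact (hRK x).1 h3

/-- The averages of products of eigenvectors. -/
lemma avg_pure [Fintype (tor G m)] (hP : (Fintype.card (tor G m) : k) ≠ 0)
    (hτ : ∀ g i y, τ g (e i y) = e i (ρ i g y)) (hpm : Nat.Coprime p m)
    (hG : ∀ g : G, g ^ (p * m) = 1) (L0 N0 M : IntermediateField k E) (hLM : L0 ≤ M)
    (hNM : N0 ≤ M) (hL1 : ∀ i y, (∀ g, ρ i g y = y) → e i y ∈ L0)
    (hN : ∀ x ∈ N0, ∀ g : G, g ^ m = 1 → τ g x = x)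
    (hMw : ∀ χ, (∀ g, τ g (ww ρ e p m χ) = ww ρ e p m χ) → ww ρ e p m χ ∈ M)
    (x : E) (hx : x ∈ pure ρ e p m N0) : avg τ (tor G m) x ∈ M := by
  classical
  obtain ⟨c, hc, v, hv, rfl⟩ := hx
  have h1 : ∀ g ∈ tor G m, ∃ c' : k, τ g (c * ∏ i, e i (v i)) = c' • (c * ∏ i, e i (v i)) := by
    intro g hg
    choose d hd hd' using fun i => (hv i).2.2 g hg
    refine ⟨∏ i, d i, ?_⟩
    rw [map_mul, hN c hc g hg, map_prod, ← mul_smul_comm]
    congr 1
    rw [Algebra.smul_def, map_prod, ← Finset.prod_mul_distrib]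
    refine Finset.prod_congr rfl fun i _ => ?_
    rw [hτ, hd', map_smul, Algebra.smul_def]
  rcases avg_eig hP h1 with h2 | ⟨h2, h3⟩
  · rw [h2]
    exact zero_mem _
  · rw [h3]
    by_cases hc0 : c = 0
    · rw [hc0, zero_mul]
      exact zero_mem _
    choose χ d hd0 hdf hχp hvd using fun i => rep_spec hpm hG (hv i)
    have h4 : c * ∏ i, e i (v i) = (c * ∏ i, e i (d i)) * ww ρ e p m χ := by
      have h5 : ∏ i, e i (v i) = (∏ i, e i (d i)) * ww ρ e p m χ := by
        unfold ww
        rw [← Finset.prod_mul_distrib]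
        refine Finset.prod_congr rfl fun i _ => ?_
        rw [← map_mul, ← hvd]
      rw [h5, mul_assoc]
    have hd1 : ∏ i, e i (d i) ∈ L0 := prod_mem fun i _ => hL1 i _ (hdf i)
    have hd2 : ∀ g, τ g (∏ i, e i (d i)) = ∏ i, e i (d i) := by
      intro g
      rw [map_prod]
      exact Finset.prod_congr rfl fun i _ => by rw [hτ, hdf]
    have hd3 : ∏ i, e i (d i) ≠ 0 :=
      Finset.prod_ne_zero_iff.2 fun i _ => (_root_.map_ne_zero _).2 (hd0 i)
    have hw : ∀ g, τ g (ww ρ e p m χ) = ww ρ e p m χ := by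
      refine fixed_of hpm hG ?_ ?_
      · intro g hg
        unfold ww
        rw [map_prod]
        exact Finset.prod_congr rfl fun i _ => by rw [hτ, hχp i g hg]
      · intro g hg
        have h6 := h2 g hg
        rw [h4, map_mul, map_mul, hN c hc g hg, hd2] at h6
        exact mul_left_cancel₀ (mul_ne_zero hc0 hd3) h6
    rw [h4]
    exact mul_mem (mul_mem (hNM hc) (hLM hd1)) (hMw χ hw)

/-- Generators of the fixed field. -/
theorem fixed_gen [Fact p.Prime] [CharP k p] [CharP E p] [∀ i, CharP (K i) p] {ζ : k}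
    (hζ : IsPrimitiveRoot ζ m) (hm : (m : k) ≠ 0)
    (hτ : ∀ g i y, τ g (e i y) = e i (ρ i g y)) (hG : ∀ g : G, g ^ (p * m) = 1)
    (L0 : IntermediateField k E) (hL1 : ∀ i y, (∀ g, ρ i g y = y) → e i y ∈ L0)
    (hL2 : ∀ x ∈ L0, ∀ g, τ g x = x) (halg : ∀ x : E, IsAlgebraic L0 x)
    (hgen : ∀ M : IntermediateField k E, (∀ i y, e i y ∈ M) → M = ⊤)
    (z : ∀ i, K i) (ε : Fin n → G → ZMod p)
    (hz : ∀ i g, ρ i g (z i) = z i + zc p (K i) (ε i g))
    (hzgen : ∀ i, ∀ M : IntermediateField k (K i), z i ∈ M →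
      (∀ y, (∀ g, g ^ p = 1 → ρ i g y = y) → y ∈ M) → ∀ y, y ∈ M)
    (M : IntermediateField k E) (hM0 : L0 ≤ M)
    (hMw : ∀ χ, (∀ g, τ g (ww ρ e p m χ) = ww ρ e p m χ) → ww ρ e p m χ ∈ M)
    (hMu : ∀ c : Fin n → ZMod p, (∀ g, ∑ i, c i * ε i g = 0) →
      ∑ i, zc p E (c i) * e i (z i) ∈ M)
    (y : E) (hy : ∀ g, τ g y = y) : y ∈ M := by
  classical
  have hp : p.Prime := Fact.out
  have hpm : Nat.Coprime p m := by
    rw [Nat.Prime.coprime_iff_not_dvd hp]
    intro h
    exact hm ((CharP.cast_eq_zero_iff k p m).2 h)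
  let S : Set E := (L0 : Set E) ∪ {x | ∃ χ, (∀ g, τ g (ww ρ e p m χ) = ww ρ e p m χ) ∧
    x = ww ρ e p m χ} ∪ {x | ∃ c : Fin n → ZMod p, (∀ g, ∑ i, c i * ε i g = 0) ∧
      x = ∑ i, zc p E (c i) * e i (z i)}
  let M1 : IntermediateField k E := IntermediateField.adjoin k S
  have hM1 : M1 ≤ M := by
    rw [IntermediateField.adjoin_le_iff]
    rintro x ((hx | ⟨χ, hχ, rfl⟩) | ⟨c, hc, rfl⟩)
    · exact hM0 hx
    · exact hMw χ hχ
    · exact hMu c hc
  apply hM1
  have hS : ∀ x ∈ S, x ∈ M1 := fun x hx => IntermediateField.subset_adjoin k S hx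
  have hLM : L0 ≤ M1 := fun x hx => hS x (Or.inl (Or.inl hx))
  have hZ : ∀ g i, τ g (e i (z i)) = e i (z i) + zc p E (ε i g) := by
    intro g i
    rw [hτ, hz, map_add]
    congr 1
    exact RingHom.congr_fun (RingHom.ext_zmod ((e i : K i →+* E).comp (zc p (K i))) (zc p E))
      (ε i g)
  have hM1f : ∀ x ∈ M1, ∀ g, τ g x = x := by
    intro x hx g
    have h1 : M1 ≤ fixF {τ g} := by
      rw [IntermediateField.adjoin_le_iff]
      rintro x ((hx | ⟨χ, hχ, rfl⟩) | ⟨c, hc, rfl⟩)
      · rintro _ rfl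
        exact hL2 x hx g
      · rintro _ rfl
        exact hχ g
      · rintro _ rfl
        rw [map_sum]
        have h2 : ∀ i, τ g (zc p E (c i) * e i (z i)) =
            zc p E (c i) * e i (z i) + zc p E (c i * ε i g) := by
          intro i
          rw [map_mul, zc_fixed, hZ, mul_add, ← map_mul]
        rw [Finset.sum_congr rfl fun i _ => h2 i, Finset.sum_add_distrib, ← map_sum, hc g,
          map_zero, add_zero]
    exact h1 hx _ rfl
  let N0 : IntermediateField k E := IntermediateField.adjoin k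
    ((L0 : Set E) ∪ Set.range fun i => e i (z i))
  have hLN : L0 ≤ N0 := fun x hx => IntermediateField.subset_adjoin k _ (Or.inl hx)
  have hzN : ∀ i, e i (z i) ∈ N0 := fun i =>
    IntermediateField.subset_adjoin k _ (Or.inr ⟨i, rfl⟩)
  have hN : ∀ x ∈ N0, ∀ g : G, g ^ m = 1 → τ g x = x := by
    intro x hx g hg
    have h1 : N0 ≤ fixF {τ g} := by
      rw [IntermediateField.adjoin_le_iff]
      rintro x (hx | ⟨i, rfl⟩)
      · rintro _ rfl
        exact hL2 x hx g
      · rintro _ rfl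
        change τ g (e i (z i)) = e i (z i)
        rw [hZ, eps_tor (hz i) hpm hg, map_zero, add_zero]
    exact h1 hx _ rfl
  let M2 : IntermediateField k E := M1 ⊔ N0
  have hft : Fintype (tor G m) := Fintype.ofFinite _
  have hNP := card_tor_ne (G := G) k hp hm
  have hyM2 : y ∈ M2 := by
    have h1 := closure_top (ρ := ρ) (e := e) (p := p) hζ hm L0 N0 hLN halg hgen z hzN hzgen y
    have h2 : ∀ x ∈ AddSubmonoid.closure (pure ρ e p m N0 : Set E),
        avg τ (tor G m) x ∈ M2 := by
      intro x hx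
      induction hx using AddSubmonoid.closure_induction with
      | mem x hx =>
        exact avg_pure hNP hτ hpm hG L0 N0 M2 (hLN.trans le_sup_right) le_sup_right hL1 hN
          (fun χ hχ => le_sup_left (a := M1) (b := N0) (hS _ (Or.inl (Or.inr ⟨χ, hχ, rfl⟩)))) x hx
      | zero =>
        rw [avg_zero]
        exact zero_mem _
      | add v w _ _ h3 h4 =>
        rw [avg_add]
        exact add_mem h3 h4
    have h3 := h2 y h1
    rwa [avg_of_fixed hNP fun g _ => hy g] at h3
  let H : AddSubgroup (Fin n → ZMod p) :=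
    { carrier := Set.range fun g i => ε i g
      add_mem' := by
        rintro _ _ ⟨g, rfl⟩ ⟨g', rfl⟩
        exact ⟨g * g', funext fun i => eps_mul (hz i) g g'⟩
      zero_mem' := ⟨1, funext fun i => eps_one (hz i)⟩
      neg_mem' := by
        rintro _ ⟨g, rfl⟩
        exact ⟨g⁻¹, funext fun i => eps_inv (hz i) g⟩ }
  refine gal2 p M1 M2 le_sup_left (fun i => e i (z i))
    (fun i => le_sup_right (a := M1) (b := N0) (hzN i)) ?_ ?_ H ?_ y hyM2 ?_
  · intro i
    apply hLM
    have h1 : e i (z i) ^ p - e i (z i) = e i (z i ^ p - z i) := by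
      rw [map_sub, map_pow]
    rw [h1]
    refine hL1 i _ fun g => ?_
    rw [map_sub, map_pow, hz, add_pow_char, Pool.Agent.W435.WT.Gal.zc_pow]
    ring
  · intro M'' h1 h2
    refine sup_le h1 ?_
    rw [IntermediateField.adjoin_le_iff]
    rintro x (hx | ⟨i, rfl⟩)
    · exact h1 (hLM hx)
    · exact h2 i
  · intro c hc
    exact hS _ (Or.inr ⟨c, fun g => hc _ ⟨g, rfl⟩, rfl⟩)
  · rintro _ ⟨g, rfl⟩
    exact ⟨τ g, fun x hx => hM1f x hx g, fun i => hZ g i, hy g⟩

end gen

end Pool.Agent.TH214.Q
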