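import Pool.Agent.TH214.Q.Lift

/-! Graded domains, graded by a finite abelian group. -/

set_option autoImplicit false
set_option linter.unusedVariables false
set_option linter.unusedSectionVars false

universe u

open Polynomial Pool.Agent.W558 Pool.Agent.W558.WT

namespace Pool.Agent.TH214.Q

section grp

variable {Λ : Type} [AddCommGroup Λ] [Finite Λ]

/-- The component of order prime to `p`. -/
def tameC (q m : ℕ) (x : Λ) : Λ := (Nat.gcdA q m * q : ℤ) • x

/-- The `p`-primary component. -/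
def wildC (q m : ℕ) (x : Λ) : Λ := (Nat.gcdB q m * m : ℤ) • x

variable {q m : ℕ}

lemma tame_add_wild (h : Nat.Coprime q m) (x : Λ) : tameC q m x + wildC q m x = x := by
  unfold tameC wildC
  rw [← add_zsmul]
  have h1 : (Nat.gcdA q m * q + Nat.gcdB q m * m : ℤ) = 1 := by
    have h2 := Nat.gcd_eq_gcd_ab q m
    rw [h.gcd_eq_one, Nat.cast_one] at h2
    rw [h2]
    ring
  rw [h1, one_zsmul]

lemma tame_sum {ι : Type} (s : Finset ι) (x : ι → Λ) :
    ∑ i ∈ s, tameC q m (x i) = tameC q m (∑ i ∈ s, x i) := by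
  unfold tameC
  rw [Finset.smul_sum]

lemma wild_sum {ι : Type} (s : Finset ι) (x : ι → Λ) :
    ∑ i ∈ s, wildC q m (x i) = wildC q m (∑ i ∈ s, x i) := by
  unfold wildC
  rw [Finset.smul_sum]

lemma card_zsmul (x : Λ) (c : ℤ) : (c * (Nat.card Λ : ℤ)) • x = 0 := by
  rw [mul_zsmul, natCast_zsmul, card_nsmul_eq_zero', zsmul_zero]

lemma nsmul_tame (h : q * m = Nat.card Λ) (x : Λ) : m • tameC q m x = 0 := by
  unfold tameC
  rw [← natCast_zsmul, ← mul_zsmul]
  have h1 : (m : ℤ) * (Nat.gcdA q m * q) = Nat.gcdA q m * (Nat.card Λ : ℤ) := by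
    rw [← h, Nat.cast_mul]
    ring
  rw [h1, card_zsmul]

lemma nsmul_wild (h : q * m = Nat.card Λ) (x : Λ) : q • wildC q m x = 0 := by
  unfold wildC
  rw [← natCast_zsmul, ← mul_zsmul]
  have h1 : (q : ℤ) * (Nat.gcdB q m * m) = Nat.gcdB q m * (Nat.card Λ : ℤ) := by
    rw [← h, Nat.cast_mul]
    ring
  rw [h1, card_zsmul]

/-- A generator of the `p`-primary component of a subgroup of order not divisible by `p ^ 2`. -/
lemma exists_wild_gen {p s : ℕ} [Fact p.Prime] (H : AddSubgroup Λ) (hc : ¬ p ^ 2 ∣ Nat.card H) :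
    ∃ x ∈ H, p • x = 0 ∧ ∀ y ∈ H, (p ^ s) • y = 0 → ∃ a : ZMod p, y = a.val • x := by
  classical
  have hp : p.Prime := Fact.out
  let W : AddSubgroup Λ :=
    { carrier := {y | y ∈ H ∧ (p ^ s) • y = 0}
      add_mem' := by
        rintro a b ⟨ha, ha'⟩ ⟨hb, hb'⟩
        exact ⟨H.add_mem ha hb, by rw [nsmul_add, ha', hb', add_zero]⟩
      zero_mem' := ⟨H.zero_mem, nsmul_zero _⟩
      neg_mem' := by
        rintro a ⟨ha, ha'⟩
        exact ⟨H.neg_mem ha, by rw [neg_nsmul, ha', neg_zero]⟩ }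
  have hWH : W ≤ H := fun y hy => hy.1
  have hPG : IsPGroup p (Multiplicative W) := by
    intro g
    refine ⟨s, ?_⟩
    apply Multiplicative.toAdd.injective
    rw [toAdd_pow, toAdd_one]
    exact Subtype.ext g.toAdd.2.2
  obtain ⟨j, hj⟩ := IsPGroup.iff_card.1 hPG
  have hj' : Nat.card W = p ^ j := hj
  have hdvd : Nat.card W ∣ Nat.card H := AddSubgroup.card_dvd_of_le hWH
  have hj1 : j ≤ 1 := by
    by_contra h
    apply hc
    refine dvd_trans ?_ hdvd
    rw [hj']
    exact pow_dvd_pow p (by omega)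
  have hex : ∃ x ∈ W, p • x = 0 ∧ ∀ y ∈ W, y ∈ AddSubgroup.zmultiples x := by
    rcases Nat.le_one_iff_eq_zero_or_eq_one.1 hj1 with rfl | rfl
    · rw [pow_zero] at hj'
      refine ⟨0, W.zero_mem, nsmul_zero _, fun y hy => ?_⟩
      have h1 : W = ⊥ := (AddSubgroup.card_eq_one (H := W)).1 hj'
      rw [h1] at hy
      rw [(AddSubgroup.mem_bot).1 hy]
      exact AddSubgroup.zero_mem _
    · rw [pow_one] at hj'
      have hfp : Fact (Nat.card W).Prime := by rw [hj']; infer_instance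
      have hnt : Nontrivial W := by
        rw [← Finite.one_lt_card_iff_nontrivial, hj']
        exact hp.one_lt
      obtain ⟨x, hx⟩ := exists_ne (0 : W)
      have hpx : p • x = 0 := by
        rw [← hj']
        exact card_nsmul_eq_zero'
      refine ⟨x, x.2, congrArg Subtype.val hpx, fun y hy => ?_⟩
      have h1 := zmultiples_eq_top_of_prime_card (p := p) hj' hx
      have h2 : (⟨y, hy⟩ : W) ∈ AddSubgroup.zmultiples x := by rw [h1]; trivial
      obtain ⟨c, hc⟩ := AddSubgroup.mem_zmultiples_iff.1 h2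
      exact AddSubgroup.mem_zmultiples_iff.2 ⟨c, congrArg Subtype.val hc⟩
  obtain ⟨x, hx, hpx, hgen⟩ := hex
  refine ⟨x, hx.1, hpx, fun y hy hy' => ?_⟩
  obtain ⟨c, hc⟩ := AddSubgroup.mem_zmultiples_iff.1 (hgen y ⟨hy, hy'⟩)
  refine ⟨(c : ZMod p), ?_⟩
  rw [← hc]
  have h1 : ((((c : ZMod p).val : ℕ) : ℤ) : ZMod p) = (c : ZMod p) := by
    rw [Int.cast_natCast, ZMod.natCast_zmod_val]
  obtain ⟨b, hb⟩ := (ZMod.intCast_eq_intCast_iff_dvd_sub _ _ p).1 h1
  have h2 : c = (((c : ZMod p).val : ℕ) : ℤ) + b * p := by linarith [hb, mul_comm (p : ℤ) b]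
  conv_lhs => rw [h2]
  rw [add_zsmul, natCast_zsmul, mul_zsmul, natCast_zsmul, hpx, zsmul_zero, add_zero]

end grp

end Pool.Agent.TH214.Q
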