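import Pool.Agent.TH214.Q.GrA

/-! Graded domains, graded by a finite abelian group. -/

set_option autoImplicit false
set_option linter.unusedVariables false
set_option linter.unusedSectionVars false

universe u

open Polynomial Pool.Agent.W558 Pool.Agent.W558.WT

namespace Pool.Agent.TH214.Q

section gr

variable {k A : Type u} [Field k] [CommRing A] [IsDomain A] [Algebra k A] {Λ : Type}
  [AddCommGroup Λ] [Finite Λ] [DecidableEq Λ] (𝒜 : Λ → Submodule k A) [GradedAlgebra 𝒜]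

variable {𝒜} in
lemma pow_card_mem {x : Λ} {a : A} (ha : a ∈ 𝒜 x) : a ^ Nat.card Λ ∈ 𝒜 0 := by
  have h1 := SetLike.pow_mem_graded (Nat.card Λ) ha
  rwa [card_nsmul_eq_zero'] at h1

variable {𝒜} in
lemma mul_pow_card_mem {x : Λ} {a b : A} (ha : a ∈ 𝒜 x) (hb : b ∈ 𝒜 x) :
    a * b ^ (Nat.card Λ - 1) ∈ 𝒜 0 := by
  have h1 := SetLike.mul_mem_graded ha (SetLike.pow_mem_graded (Nat.card Λ - 1) hb)
  have h2 : x + (Nat.card Λ - 1) • x = 0 := by
    have h3 : Nat.card Λ = 1 + (Nat.card Λ - 1) := by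
      have := Nat.card_pos (α := Λ)
      omega
    have h4 : Nat.card Λ • x = 0 := card_nsmul_eq_zero'
    rw [h3, add_nsmul, one_nsmul] at h4
    exact h4
  rwa [h2] at h1

/-- The degrees of the nonzero homogeneous elements. -/
def suppG : AddSubgroup Λ where
  carrier := {x | ∃ a ∈ 𝒜 x, a ≠ 0}
  add_mem' := by
    rintro x y ⟨a, ha, ha0⟩ ⟨b, hb, hb0⟩
    exact ⟨a * b, SetLike.mul_mem_graded ha hb, mul_ne_zero ha0 hb0⟩
  zero_mem' := ⟨1, SetLike.one_mem_graded 𝒜, one_ne_zero⟩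
  neg_mem' := by
    rintro x ⟨a, ha, ha0⟩
    refine ⟨a ^ (Nat.card Λ - 1), ?_, pow_ne_zero _ ha0⟩
    have h1 := SetLike.pow_mem_graded (Nat.card Λ - 1) ha
    have h2 : (Nat.card Λ - 1) • x = - x := by
      have h3 : Nat.card Λ = 1 + (Nat.card Λ - 1) := by
        have := Nat.card_pos (α := Λ)
        omega
      have h4 : Nat.card Λ • x = 0 := card_nsmul_eq_zero'
      rw [h3, add_nsmul, one_nsmul] at h4
      exact (neg_eq_of_add_eq_zero_right h4).symm
    rwa [h2] at h1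

lemma mem_suppG {x : Λ} : x ∈ suppG 𝒜 ↔ ∃ a ∈ 𝒜 x, a ≠ 0 := Iff.rfl

open Classical in
/-- Representatives. -/
noncomputable def repG (x : Λ) : A :=
  if x = 0 then 1 else if h : ∃ a ∈ 𝒜 x, a ≠ 0 then h.choose else 1

lemma repG_zero : repG 𝒜 0 = 1 := by
  unfold repG
  rw [if_pos rfl]

lemma repG_ne (x : Λ) : repG 𝒜 x ≠ 0 := by
  unfold repG
  split_ifs with h1 h2
  · exact one_ne_zero
  · exact h2.choose_spec.2
  · exact one_ne_zero

variable {𝒜} in
lemma repG_mem {x : Λ} (hx : x ∈ suppG 𝒜) : repG 𝒜 x ∈ 𝒜 x := by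
  unfold repG
  split_ifs with h1 h2
  · rw [h1]
    exact SetLike.one_mem_graded 𝒜
  · exact h2.choose_spec.1
  · exact absurd hx h2

variable (K : Type u) [Field K] [Algebra k K] [Algebra A K] [IsScalarTower k A K]
  [IsFractionRing A K]

/-- The field of fractions of degree zero. -/
def F0 : IntermediateField k K where
  carrier := {y | ∃ a ∈ 𝒜 0, ∃ b ∈ 𝒜 0, b ≠ 0 ∧ y = algebraMap A K a / algebraMap A K b}
  mul_mem' := by
    rintro _ _ ⟨a, ha, b, hb, hb0, rfl⟩ ⟨c, hc, d, hd, hd0, rfl⟩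
    have h1 := SetLike.mul_mem_graded ha hc
    have h2 := SetLike.mul_mem_graded hb hd
    rw [add_zero] at h1 h2
    refine ⟨a * c, h1, b * d, h2, mul_ne_zero hb0 hd0, ?_⟩
    rw [map_mul, map_mul, div_mul_div_comm]
  add_mem' := by
    rintro _ _ ⟨a, ha, b, hb, hb0, rfl⟩ ⟨c, hc, d, hd, hd0, rfl⟩
    have h1 := SetLike.mul_mem_graded ha hd
    have h2 := SetLike.mul_mem_graded hb hd
    have h3 := SetLike.mul_mem_graded hb hc
    rw [add_zero] at h1 h2 h3
    have hb' : algebraMap A K b ≠ 0 := by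
      rw [Ne, IsFractionRing.to_map_eq_zero_iff]
      exact hb0
    have hd' : algebraMap A K d ≠ 0 := by
      rw [Ne, IsFractionRing.to_map_eq_zero_iff]
      exact hd0
    refine ⟨a * d + b * c, Submodule.add_mem _ h1 h3, b * d, h2, mul_ne_zero hb0 hd0, ?_⟩
    rw [map_add, map_mul, map_mul, map_mul, div_add_div _ _ hb' hd']
  algebraMap_mem' := by
    intro c
    refine ⟨algebraMap k A c, ?_, 1, SetLike.one_mem_graded 𝒜, one_ne_zero, ?_⟩
    · rw [Algebra.algebraMap_eq_smul_one]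
      exact Submodule.smul_mem _ _ (SetLike.one_mem_graded 𝒜)
    · rw [map_one, div_one, ← IsScalarTower.algebraMap_apply]
  inv_mem' := by
    rintro _ ⟨a, ha, b, hb, hb0, rfl⟩
    by_cases ha0 : a = 0
    · refine ⟨0, Submodule.zero_mem _, 1, SetLike.one_mem_graded 𝒜, one_ne_zero, ?_⟩
      rw [ha0, map_zero, zero_div, inv_zero, zero_div]
    · exact ⟨b, hb, a, ha, ha0, inv_div _ _⟩

lemma mem_F0 {y : K} : y ∈ F0 𝒜 K ↔ ∃ a ∈ 𝒜 0, ∃ b ∈ 𝒜 0, b ≠ 0 ∧
    y = algebraMap A K a / algebraMap A K b := Iff.rfl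

lemma mem_F0_of_zero {a : A} (ha : a ∈ 𝒜 0) : algebraMap A K a ∈ F0 𝒜 K :=
  ⟨a, ha, 1, SetLike.one_mem_graded 𝒜, one_ne_zero, by rw [map_one, div_one]⟩

variable {𝒜} in
lemma div_mem_F0 {x : Λ} {a b : A} (ha : a ∈ 𝒜 x) (hb : b ∈ 𝒜 x) (hb0 : b ≠ 0) :
    algebraMap A K a / algebraMap A K b ∈ F0 𝒜 K := by
  refine ⟨a * b ^ (Nat.card Λ - 1), mul_pow_card_mem ha hb, b ^ Nat.card Λ, pow_card_mem hb,
    pow_ne_zero _ hb0, ?_⟩
  have h3 : Nat.card Λ = (Nat.card Λ - 1) + 1 := by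
    have := Nat.card_pos (α := Λ)
    omega
  have hb' : algebraMap A K b ≠ 0 := by
    rw [Ne, IsFractionRing.to_map_eq_zero_iff]
    exact hb0
  conv_rhs => rw [h3]
  rw [map_mul, map_pow, map_pow, pow_succ, Nat.add_sub_cancel, mul_comm (algebraMap A K b ^ _),
    mul_div_mul_right _ _ (pow_ne_zero _ hb')]

variable {𝒜} in
lemma zero_of_mem_F0 {x : Λ} {a : A} (ha : a ∈ 𝒜 x) (ha0 : a ≠ 0)
    (h : algebraMap A K a ∈ F0 𝒜 K) : x = 0 := by
  obtain ⟨c, hc, d, hd, hd0, h1⟩ := h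
  have hd' : algebraMap A K d ≠ 0 := by
    rw [Ne, IsFractionRing.to_map_eq_zero_iff]
    exact hd0
  rw [eq_div_iff hd', ← map_mul] at h1
  have h2 : a * d = c := IsFractionRing.injective A K h1
  have h3 := SetLike.mul_mem_graded ha hd
  rw [h2, add_zero] at h3
  exact DirectSum.degree_eq_of_mem_mem 𝒜 h3 hc (by
    rw [← h2]
    exact mul_ne_zero ha0 hd0)

variable {𝒜} in
/-- `p`-th powers of homogeneous elements. -/
lemma not_pow_F0 {p : ℕ} [Fact p.Prime] [CharP K p] {x : Λ} {a : A} (ha : a ∈ 𝒜 x) (ha0 : a ≠ 0)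
    (hx : x ≠ 0) (c : F0 𝒜 K) (hc : (c : K) = algebraMap A K a ^ p) : ¬ ∃ b, b ^ p = c := by
  rintro ⟨b, hb⟩
  apply hx
  refine zero_of_mem_F0 (𝒜 := 𝒜) K ha ha0 ?_
  have h1 : algebraMap A K a = (b : K) := by
    apply frobenius_inj K p
    rw [frobenius_def, frobenius_def, ← hc, ← hb]
    rfl
  rw [h1]
  exact b.2

variable [Algebra.FiniteType k A]

/-- Finiteness over the part of degree zero. -/
lemma exists_SG : ∃ S : Finset A, (∀ a ∈ S, a ∈ 𝒜 0 ∧ a ≠ 0) ∧
    ∀ a : A, IsIntegral (Algebra.adjoin k (S : Set A)) a := by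
  classical
  obtain ⟨t, ht⟩ := (Algebra.FiniteType.out : (⊤ : Subalgebra k A).FG)
  have hfΛ : Fintype Λ := Fintype.ofFinite Λ
  let t' : Finset A := t.biUnion fun a => Finset.univ.image fun x : Λ =>
    (DirectSum.decompose 𝒜 a x : A)
  let S : Finset A := (t'.image fun a => a ^ Nat.card Λ).filter fun a => a ≠ 0
  have hN : 0 < Nat.card Λ := Nat.card_pos
  refine ⟨S, ?_, ?_⟩
  · intro a ha
    rw [Finset.mem_filter] at ha
    refine ⟨?_, ha.2⟩
    obtain ⟨b, hb, rfl⟩ := Finset.mem_image.1 ha.1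
    obtain ⟨c, -, hb⟩ := Finset.mem_biUnion.1 hb
    obtain ⟨x, -, rfl⟩ := Finset.mem_image.1 hb
    exact pow_card_mem (DirectSum.decompose 𝒜 c x).2
  · intro a
    have ha : a ∈ Algebra.adjoin k (t : Set A) := by rw [ht]; trivial
    induction ha using Algebra.adjoin_induction with
    | mem b hb =>
      rw [← DirectSum.sum_support_decompose 𝒜 b]
      refine IsIntegral.sum _ fun x _ => ?_
      have h1 : (DirectSum.decompose 𝒜 b x : A) ^ Nat.card Λ ∈
          Algebra.adjoin k (S : Set A) := by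
        by_cases h0 : (DirectSum.decompose 𝒜 b x : A) ^ Nat.card Λ = 0
        · rw [h0]
          exact Subalgebra.zero_mem _
        · refine Algebra.subset_adjoin (Finset.mem_coe.2 (Finset.mem_filter.2 ⟨?_, h0⟩))
          exact Finset.mem_image_of_mem _ (Finset.mem_biUnion.2 ⟨b, hb,
            Finset.mem_image_of_mem _ (Finset.mem_univ x)⟩)
      refine IsIntegral.of_pow hN ?_
      exact isIntegral_algebraMap (x := (⟨_, h1⟩ : Algebra.adjoin k (S : Set A)))
    | algebraMap r => exact isIntegral_algebraMap (x := algebraMap k _ r)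
    | add x y _ _ hx hy => exact hx.add hy
    | mul x y _ _ hx hy => exact hx.mul hy

lemma alg_F0 : Algebra.IsAlgebraic (F0 𝒜 K) K := by
  obtain ⟨S, hS, hSi⟩ := exists_SG 𝒜
  have hR : ∀ r ∈ Algebra.adjoin k (S : Set A), algebraMap A K r ∈ F0 𝒜 K := by
    intro r hr
    have h1 : Algebra.adjoin k (S : Set A) ≤
        (F0 𝒜 K).toSubalgebra.comap (IsScalarTower.toAlgHom k A K) := by
      rw [Algebra.adjoin_le_iff]
      intro a ha
      exact mem_F0_of_zero 𝒜 K (hS a ha).1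
    exact h1 hr
  have h1 : ∀ a : A, IsIntegral (F0 𝒜 K) (algebraMap A K a) := by
    intro a
    obtain ⟨q, hq, hqa⟩ := hSi a
    let φ : Algebra.adjoin k (S : Set A) →+* F0 𝒜 K :=
      { toFun := fun r => ⟨algebraMap A K (r : A), hR _ r.2⟩
        map_one' := Subtype.ext (map_one (algebraMap A K))
        map_mul' := fun a b => Subtype.ext (map_mul (algebraMap A K) _ _)
        map_zero' := Subtype.ext (map_zero (algebraMap A K))
        map_add' := fun a b => Subtype.ext (map_add (algebraMap A K) _ _) }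
    refine ⟨q.map φ, hq.map φ, ?_⟩
    rw [eval₂_map]
    have h2 : (algebraMap (F0 𝒜 K) K).comp φ =
        (algebraMap A K).comp (algebraMap (Algebra.adjoin k (S : Set A)) A) :=
      RingHom.ext fun y => rfl
    rw [h2]
    have h3 := congrArg (algebraMap A K) hqa
    rw [hom_eval₂, map_zero] at h3
    exact h3
  refine ⟨fun x => ?_⟩
  obtain ⟨a, b, hb, rfl⟩ := IsFractionRing.div_surjective (A := A) x
  rw [div_eq_mul_inv]
  exact (h1 a).isAlgebraic.mul (h1 b).isAlgebraic.inv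

/-- The function field of the quotient. -/
theorem modGr (htr : Algebra.trdeg k A = 2)
    (N : ℕ) (H : Fin (N + 1) → K) (hH : ∀ l, H l ≠ 0)
    (hsm : ∀ j, Algebra.Smooth k (Algebra.adjoin k (Set.range fun l => H l / H j)))
    (hc : ∀ j (y : K), (∃ a ∈ 𝒜 0, ∃ b ∈ 𝒜 0, b ≠ 0 ∧ y = algebraMap A K a / algebraMap A K b) ↔
      ∃ u ∈ Algebra.adjoin k (Set.range fun l => H l / H j),
      ∃ v ∈ Algebra.adjoin k (Set.range fun l => H l / H j), v ≠ 0 ∧ y = u / v) :
    Algebra.trdeg k (F0 𝒜 K) = 2 ∧ HasModel k (F0 𝒜 K) := by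
  have halg := alg_F0 𝒜 K
  have htrK : Algebra.trdeg k K = 2 := (Pool.Agent.W348.WTM.trdeg_frac k A K).trans htr
  have htrF : Algebra.trdeg k (F0 𝒜 K) = Algebra.trdeg k K := by
    have h1 := trdeg_add_eq k (F0 𝒜 K) (A := K)
    rw [trdeg_eq_zero (R := F0 𝒜 K) (A := K), add_zero] at h1
    exact h1
  refine ⟨htrF.trans htrK, ?_⟩
  have hF : ∀ l, H l / H 0 ∈ F0 𝒜 K := by
    intro l
    exact (hc 0 _).2 ⟨H l / H 0, Algebra.subset_adjoin ⟨l, rfl⟩, 1, one_mem _, one_ne_zero,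
      (div_one _).symm⟩
  set H' : Fin (N + 1) → F0 𝒜 K := fun l => ⟨H l / H 0, hF l⟩ with hH'
  have hH'0 : ∀ l, H' l ≠ 0 := by
    intro l h
    have h1 : H l / H 0 = 0 := congrArg Subtype.val h
    exact div_ne_zero (hH l) (hH 0) h1
  have hq : ∀ i j, ((H' j / H' i : F0 𝒜 K) : K) = H j / H i := by
    intro i j
    have h1 : ((H' j / H' i : F0 𝒜 K) : K) = (H j / H 0) / (H i / H 0) := rfl
    rw [h1, div_div_div_cancel_right₀ (hH 0)]
  have hmap : ∀ i, (Algebra.adjoin k (Set.range fun j => H' j / H' i)).map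
      (F0 𝒜 K).val = Algebra.adjoin k (Set.range fun j => H j / H i) := fun i =>
    Pool.Agent.W348.WTM.chart_map (F0 𝒜 K) H H' i (hq i)
  refine ⟨N, H', hH'0, fun i => ⟨?_, ?_⟩⟩
  · have h1 : Algebra.Smooth k
        ((Algebra.adjoin k (Set.range fun j => H' j / H' i)).map (F0 𝒜 K).val) := by
      rw [hmap i]
      exact hsm i
    exact Algebra.Smooth.of_equiv ((Algebra.adjoin k
      (Set.range fun j => H' j / H' i)).equivMapOfInjective
      (F0 𝒜 K).val (F0 𝒜 K).val.injective).symm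
  · intro x
    obtain ⟨u, hu, v, hv, hv0, hx⟩ := (hc i (x : K)).1 x.2
    rw [← hmap i] at hu hv
    obtain ⟨a, ha, rfl⟩ := hu
    obtain ⟨b, hb, rfl⟩ := hv
    refine ⟨a, ha, b, hb, ?_, ?_⟩
    · rintro rfl
      exact hv0 (map_zero _)
    · apply Subtype.ext
      rw [hx, div_eq_mul_inv]
      rfl

end gr

end Pool.Agent.TH214.Q
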