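import Pool.Agent.TH214.Q.GrB

/-! The part of degree zero of a tensor product of graded algebras. -/

set_option autoImplicit false
set_option linter.unusedVariables false
set_option linter.unusedSectionVars false

universe u

open Polynomial Pool.Agent.W558 Pool.Agent.W558.WT

namespace Pool.Agent.TH214.Q

section gen

variable {k : Type u} [Field k] {n : ℕ} {A : Fin n → Type u} [∀ i, CommRing (A i)]
  [∀ i, Algebra k (A i)] {B : Type u} [CommRing B] [Algebra k B] {j : ∀ i, A i →ₐ[k] B}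
  {Λ : Type} [AddCommGroup Λ] [DecidableEq Λ]
  (𝒜 : ∀ i, Λ → Submodule k (A i)) [∀ i, GradedAlgebra (𝒜 i)]
  (ℬ : Λ → Submodule k B) [GradedAlgebra ℬ]

/-- Products of homogeneous elements. -/
def homP (j : ∀ i, A i →ₐ[k] B) : Submonoid B where
  carrier := {b | ∃ (x : Fin n → Λ) (a : ∀ i, A i), (∀ i, a i ∈ 𝒜 i (x i)) ∧
    b = ∏ i, j i (a i)}
  mul_mem' := by
    rintro _ _ ⟨x, a, ha, rfl⟩ ⟨y, b, hb, rfl⟩
    refine ⟨x + y, fun i => a i * b i, fun i => SetLike.mul_mem_graded (ha i) (hb i), ?_⟩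
    simp only [map_mul, Finset.prod_mul_distrib]
  one_mem' := by
    refine ⟨0, fun i => 1, fun i => SetLike.one_mem_graded (𝒜 i), ?_⟩
    simp only [map_one, Finset.prod_const_one]

variable {𝒜 ℬ}

lemma mem_homP_single {i : Fin n} {x : Λ} {a : A i} (ha : a ∈ 𝒜 i x) : j i a ∈ homP 𝒜 j := by
  classical
  refine ⟨Pi.single i x, Function.update (fun i => (1 : A i)) i a, fun l => ?_, ?_⟩
  · by_cases hl : l = i
    · subst hl
      rw [Function.update_self, Pi.single_eq_same]
      exact ha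
    · rw [Function.update_of_ne hl, Pi.single_eq_of_ne hl]
      exact SetLike.one_mem_graded (𝒜 l)
  · rw [Finset.prod_eq_single i]
    · rw [Function.update_self]
    · intro l _ hl
      rw [Function.update_of_ne hl, map_one]
    · intro h
      exact absurd (Finset.mem_univ _) h

lemma smul_mem_homP {c : k} {b : B} (hn : 0 < n) (hb : b ∈ homP 𝒜 j) : c • b ∈ homP 𝒜 j := by
  obtain ⟨x, a, ha, rfl⟩ := hb
  have h1 : c • (1 : A ⟨0, hn⟩) ∈ 𝒜 ⟨0, hn⟩ 0 :=
    Submodule.smul_mem _ _ (SetLike.one_mem_graded _)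
  have h2 := mem_homP_single (j := j) h1
  have h3 : c • ∏ i, j i (a i) = j ⟨0, hn⟩ (c • 1) * ∏ i, j i (a i) := by
    rw [map_smul, map_one, smul_mul_assoc, one_mul]
  rw [h3]
  exact Submonoid.mul_mem _ h2 ⟨x, a, ha, rfl⟩

/-- Every element is a sum of products of homogeneous elements, with coefficients. -/
lemma closure_homP (hj : IsTP j) (b : B) :
    b ∈ Submodule.span k (homP 𝒜 j : Set B) := by
  classical
  have h1 : Algebra.adjoin k (⋃ i, Set.range (j i)) ≤ Algebra.adjoin k (homP 𝒜 j : Set B) := by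
    rw [Algebra.adjoin_le_iff]
    intro b hb
    obtain ⟨i, a, rfl⟩ := Set.mem_iUnion.1 hb
    rw [← DirectSum.sum_support_decompose (𝒜 i) a, map_sum]
    exact Subalgebra.sum_mem _ fun x _ => Algebra.subset_adjoin
      (mem_homP_single (DirectSum.decompose (𝒜 i) a x).2)
  rw [hj.adjoin] at h1
  have h2 : b ∈ Algebra.adjoin k (homP 𝒜 j : Set B) := h1 trivial
  rw [← Subalgebra.mem_toSubmodule, Algebra.adjoin_eq_span, Submonoid.closure_eq] at h2
  exact h2

/-- Elements of degree zero. -/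
lemma zero_gen (hj : IsTP j) (hB : ∀ i x, ∀ a ∈ 𝒜 i x, j i a ∈ ℬ x) (b : B) (hb : b ∈ ℬ 0) :
    b ∈ Submodule.span k {b | ∃ (x : Fin n → Λ) (a : ∀ i, A i), ∑ i, x i = 0 ∧
      (∀ i, a i ∈ 𝒜 i (x i)) ∧ b = ∏ i, j i (a i)} := by
  classical
  have h1 : ∀ b ∈ Submodule.span k (homP 𝒜 j : Set B), (DirectSum.decompose ℬ b 0 : B) ∈
      Submodule.span k {b | ∃ (x : Fin n → Λ) (a : ∀ i, A i), ∑ i, x i = 0 ∧
        (∀ i, a i ∈ 𝒜 i (x i)) ∧ b = ∏ i, j i (a i)} := by
    intro b hb
    induction hb using Submodule.span_induction with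
    | mem b hb =>
      obtain ⟨x, a, ha, rfl⟩ := hb
      have h2 : ∏ i, j i (a i) ∈ ℬ (∑ i, x i) :=
        SetLike.prod_mem_graded _ _ _ fun i _ => hB i _ _ (ha i)
      by_cases h0 : ∑ i, x i = 0
      · rw [h0] at h2
        rw [DirectSum.decompose_of_mem_same ℬ h2]
        exact Submodule.subset_span ⟨x, a, h0, ha, rfl⟩
      · rw [DirectSum.decompose_of_mem_ne ℬ h2 h0]
        exact Submodule.zero_mem _
    | zero =>
      rw [DirectSum.decompose_zero]
      exact Submodule.zero_mem _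
    | add b c _ _ h2 h3 =>
      rw [DirectSum.decompose_add, DirectSum.add_apply]
      exact Submodule.add_mem _ h2 h3
    | smul c b _ h2 =>
      rw [DirectSum.decompose_smul]
      exact Submodule.smul_mem _ c h2
  have h2 := h1 b (closure_homP hj b)
  rwa [DirectSum.decompose_of_mem_same ℬ hb] at h2

end gen

end Pool.Agent.TH214.Q
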