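import Pool.Agent.W348.WTM.Mod
import Pool.Agent.W191.WT.FacA

/-! Finite groups of automorphisms: invariants. -/

set_option autoImplicit false
set_option linter.unusedVariables false
set_option linter.unusedSectionVars false

universe u

open Polynomial Pool.Agent.W558 Pool.Agent.W558.WT

namespace Pool.Agent.TH214.Q

section rng

variable {k A : Type u} [Field k] [CommRing A] [IsDomain A] [Algebra k A] {G : Type} [Group G]
  [Fintype G] (ρ : G →* (A ≃ₐ[k] A))

/-- The characteristic polynomial. -/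
noncomputable def cpg (a : A) : A[X] := ∏ g : G, (X - C (ρ g a))

lemma cpg_monic (a : A) : (cpg ρ a).Monic := monic_prod_of_monic _ _ fun i _ => monic_X_sub_C _

lemma mul_app (g h : G) (a : A) : ρ (g * h) a = ρ g (ρ h a) := by
  rw [map_mul]; rfl

lemma cpg_fixed (h : G) (a : A) : (cpg ρ a).map (ρ h : A →+* A) = cpg ρ a := by
  unfold cpg
  rw [Polynomial.map_prod]
  refine Fintype.prod_equiv (Equiv.mulLeft h) _ _ fun g => ?_
  rw [Polynomial.map_sub, map_X, map_C, Equiv.coe_mulLeft, mul_app]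
  rfl

lemma cpg_coeff (h : G) (a : A) (j : ℕ) : ρ h ((cpg ρ a).coeff j) = (cpg ρ a).coeff j := by
  conv_rhs => rw [← cpg_fixed ρ h a, coeff_map]
  rfl

lemma cpg_root (a : A) : (cpg ρ a).eval a = 0 := by
  unfold cpg
  rw [eval_prod]
  refine Finset.prod_eq_zero (Finset.mem_univ 1) ?_
  rw [map_one, eval_sub, eval_X, eval_C]
  exact sub_self a

theorem exists_Sg [Algebra.FiniteType k A] :
    ∃ S : Finset A, (∀ a ∈ S, (∀ g, ρ g a = a) ∧ a ≠ 0) ∧
      ∀ a : A, IsIntegral (Algebra.adjoin k (S : Set A)) a := by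
  classical
  obtain ⟨t, ht⟩ := (Algebra.FiniteType.out : (⊤ : Subalgebra k A).FG)
  refine ⟨t.biUnion fun a => (cpg ρ a).coeffs, ?_, ?_⟩
  · intro a ha
    obtain ⟨b, hb, hab⟩ := Finset.mem_biUnion.1 ha
    obtain ⟨n, hn, rfl⟩ := Polynomial.mem_coeffs_iff.1 hab
    exact ⟨fun g => cpg_coeff ρ g b n, mem_support_iff.1 hn⟩
  · intro a
    set S := t.biUnion fun a => (cpg ρ a).coeffs
    have ha : a ∈ Algebra.adjoin k (t : Set A) := by rw [ht]; trivial
    induction ha using Algebra.adjoin_induction with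
    | mem b hb =>
      have hl : cpg ρ b ∈ Polynomial.lifts (algebraMap (Algebra.adjoin k (S : Set A)) A) := by
        rw [Polynomial.lifts_iff_coeff_lifts]
        intro n
        by_cases hn : (cpg ρ b).coeff n = 0
        · rw [hn]; exact ⟨0, map_zero _⟩
        · refine ⟨⟨_, Algebra.subset_adjoin (Finset.mem_coe.2 (Finset.mem_biUnion.2
            ⟨b, hb, Polynomial.mem_coeffs_iff.2 ⟨n, mem_support_iff.2 hn, rfl⟩⟩))⟩, rfl⟩
      obtain ⟨q, hq, -, hqm⟩ := Polynomial.lifts_and_natDegree_eq_and_monic hl (cpg_monic ρ b)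
      refine ⟨q, hqm, ?_⟩
      rw [← Polynomial.eval_map, hq]
      exact cpg_root ρ b
    | algebraMap r => exact isIntegral_algebraMap (x := algebraMap k _ r)
    | add x y _ _ hx hy => exact hx.add hy
    | mul x y _ _ hx hy => exact hx.mul hy

end rng

section fld

variable {k K : Type u} [Field k] [Field K] [Algebra k K] {G : Type} [Group G]
  [Fintype G] (s : G →* (K ≃ₐ[k] K))

theorem alg_fix : Algebra.IsAlgebraic (fixF (Set.range s)) K := by
  refine ⟨fun y => ?_⟩
  have hmon : (cpg s y).Monic := cpg_monic s y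
  have hlift : cpg s y ∈ lifts (algebraMap (fixF (Set.range s)) K) := by
    rw [lifts_iff_coeff_lifts]
    intro j
    refine ⟨⟨(cpg s y).coeff j, ?_⟩, rfl⟩
    rw [mem_fixF]
    rintro _ ⟨g, rfl⟩
    exact cpg_coeff s g y j
  obtain ⟨q, hq, -, hqm⟩ := lifts_and_natDegree_eq_and_monic hlift hmon
  refine IsIntegral.isAlgebraic ⟨q, hqm, ?_⟩
  rw [← eval_map, hq]
  exact cpg_root s y

theorem trdeg_fix : Algebra.trdeg k (fixF (Set.range s)) = Algebra.trdeg k K := by
  have := alg_fix s
  have h1 := trdeg_add_eq k (fixF (Set.range s)) (A := K)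
  rw [trdeg_eq_zero (R := fixF (Set.range s)) (A := K), add_zero] at h1
  exact h1

end fld

/-- The function field of the quotient. -/
theorem modG (k A K : Type u) [Field k] [CommRing A] [IsDomain A] [Algebra k A] [Field K]
    [Algebra k K] [Algebra A K] [IsScalarTower k A K] [IsFractionRing A K] {G : Type} [Group G]
    [Fintype G] (ρ : G →* (A ≃ₐ[k] A)) (s : G →* (K ≃ₐ[k] K))
    (hs : ∀ g a, s g (algebraMap A K a) = algebraMap A K (ρ g a)) (htr : Algebra.trdeg k A = 2)
    (N : ℕ) (H : Fin (N + 1) → K) (hH : ∀ l, H l ≠ 0)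
    (hsm : ∀ j, Algebra.Smooth k (Algebra.adjoin k (Set.range fun l => H l / H j)))
    (hc : ∀ j (a b : A), b ≠ 0 → ((∀ g, ρ g a * b = a * ρ g b) ↔
      ∃ u ∈ Algebra.adjoin k (Set.range fun l => H l / H j),
      ∃ v ∈ Algebra.adjoin k (Set.range fun l => H l / H j),
        v ≠ 0 ∧ algebraMap A K a / algebraMap A K b = u / v)) :
    Algebra.trdeg k (fixF (Set.range s)) = 2 ∧ HasModel k (fixF (Set.range s)) := by
  have htrK : Algebra.trdeg k K = 2 := (Pool.Agent.W348.WTM.trdeg_frac k A K).trans htr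
  refine ⟨(trdeg_fix s).trans htrK, ?_⟩
  have hinj : Function.Injective (algebraMap A K) := IsFractionRing.injective A K
  have hmem : ∀ (j : Fin (N + 1)) (y : K), (∀ g, s g y = y) ↔
      ∃ u ∈ Algebra.adjoin k (Set.range fun l => H l / H j),
      ∃ v ∈ Algebra.adjoin k (Set.range fun l => H l / H j), v ≠ 0 ∧ y = u / v := by
    intro j y
    obtain ⟨a, b, hb, rfl⟩ := IsFractionRing.div_surjective (A := A) y
    have hb0 : b ≠ 0 := nonZeroDivisors.ne_zero hb
    rw [← hc j a b hb0]
    refine forall_congr' fun g => ?_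
    rw [map_div₀, hs, hs]
    have h1 : algebraMap A K b ≠ 0 := fun h => hb0 (hinj (h.trans (map_zero _).symm))
    have h2 : algebraMap A K (ρ g b) ≠ 0 := by
      intro h
      have h3 : ρ g b = 0 := hinj (h.trans (map_zero _).symm)
      exact hb0 ((ρ g).injective (h3.trans (map_zero _).symm))
    rw [div_eq_div_iff h2 h1, ← map_mul, ← map_mul, hinj.eq_iff]
  have hF : ∀ l, H l / H 0 ∈ fixF (Set.range s) := by
    intro l
    rw [mem_fixF]
    rintro _ ⟨g, rfl⟩
    exact (hmem 0 _).2 ⟨H l / H 0, Algebra.subset_adjoin ⟨l, rfl⟩, 1, one_mem _, one_ne_zero,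
      (div_one _).symm⟩ g
  set H' : Fin (N + 1) → fixF (Set.range s) := fun l => ⟨H l / H 0, hF l⟩ with hH'
  have hH'0 : ∀ l, H' l ≠ 0 := by
    intro l h
    have h1 : H l / H 0 = 0 := congrArg Subtype.val h
    exact div_ne_zero (hH l) (hH 0) h1
  have hq : ∀ i j, ((H' j / H' i : fixF (Set.range s)) : K) = H j / H i := by
    intro i j
    have h1 : ((H' j / H' i : fixF (Set.range s)) : K) = (H j / H 0) / (H i / H 0) := rfl
    rw [h1, div_div_div_cancel_right₀ (hH 0)]
  have hmap : ∀ i, (Algebra.adjoin k (Set.range fun j => H' j / H' i)).map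
      (fixF (Set.range s)).val = Algebra.adjoin k (Set.range fun j => H j / H i) := fun i =>
    Pool.Agent.W348.WTM.chart_map (fixF (Set.range s)) H H' i (hq i)
  refine ⟨N, H', hH'0, fun i => ⟨?_, ?_⟩⟩
  · have h1 : Algebra.Smooth k
        ((Algebra.adjoin k (Set.range fun j => H' j / H' i)).map (fixF (Set.range s)).val) := by
      rw [hmap i]
      exact hsm i
    exact Algebra.Smooth.of_equiv ((Algebra.adjoin k
      (Set.range fun j => H' j / H' i)).equivMapOfInjective
      (fixF (Set.range s)).val (fixF (Set.range s)).val.injective).symm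
  · intro x
    obtain ⟨u, hu, v, hv, hv0, hx⟩ := (hmem i (x : K)).1 fun g => x.2 _ ⟨g, rfl⟩
    rw [← hmap i] at hu hv
    obtain ⟨a, ha, rfl⟩ := hu
    obtain ⟨b, hb, rfl⟩ := hv
    refine ⟨a, ha, b, hb, ?_, ?_⟩
    · rintro rfl
      exact hv0 (map_zero _)
    · apply Subtype.ext
      rw [hx, div_eq_mul_inv]
      rfl

end Pool.Agent.TH214.Q
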