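import Pool.Agent.TH214.Q.Gen2
import Pool.Agent.W558.WT.Quot2

/-! Extension of the action to the fraction field. -/

set_option autoImplicit false
set_option linter.unusedVariables false
set_option linter.unusedSectionVars false

universe u

open Polynomial Pool.Agent.W558 Pool.Agent.W558.WT

namespace Pool.Agent.TH214.Q

section lift

variable {k A : Type u} [Field k] [CommRing A] [IsDomain A] [Algebra k A] (K : Type u) [Field K]
  [Algebra k K] [Algebra A K] [IsScalarTower k A K] [IsFractionRing A K] {G : Type} [CommGroup G]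
  (ρ : G →* (A ≃ₐ[k] A))

/-- The action on the fraction field. -/
noncomputable def liftG : G →* (K ≃ₐ[k] K) :=
  MonoidHom.mk' (fun g => IsFractionRing.algEquivOfAlgEquiv (ρ g)) (by
    intro g h
    apply AlgEquiv.ext
    intro y
    obtain ⟨a, b, hb, rfl⟩ := IsFractionRing.div_surjective (A := A) y
    rw [AlgEquiv.mul_apply, map_div₀, map_div₀, map_div₀]
    simp only [IsFractionRing.algEquivOfAlgEquiv_algebraMap, map_mul, AlgEquiv.mul_apply])

lemma liftG_app (g : G) (a : A) : liftG K ρ g (algebraMap A K a) = algebraMap A K (ρ g a) :=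
  IsFractionRing.algEquivOfAlgEquiv_algebraMap _ _

variable {K ρ}

lemma liftG_congr {g h : G} (hgh : ρ g = ρ h) : liftG K ρ g = liftG K ρ h := by
  apply AlgEquiv.ext
  intro y
  obtain ⟨a, b, hb, rfl⟩ := IsFractionRing.div_surjective (A := A) y
  rw [map_div₀, map_div₀, liftG_app, liftG_app, liftG_app, liftG_app, hgh]

lemma liftG_cyc {p : ℕ} (hcyc : ∀ g g' : G, g ^ p = 1 → g' ^ p = 1 → ρ g ≠ 1 →
    ∃ a : ℕ, ρ g' = ρ g ^ a) (g g' : G) (hg : g ^ p = 1) (hg' : g' ^ p = 1)
    (hne : liftG K ρ g ≠ 1) : ∃ a : ℕ, liftG K ρ g' = liftG K ρ g ^ a := by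
  have h1 : ρ g ≠ 1 := by
    intro h
    apply hne
    have h2 : ρ g = ρ 1 := by rw [h, map_one]
    rw [liftG_congr (K := K) h2, map_one]
  obtain ⟨a, ha⟩ := hcyc g g' hg hg' h1
  refine ⟨a, ?_⟩
  have h2 : ρ g' = ρ (g ^ a) := by rw [ha, map_pow]
  rw [liftG_congr (K := K) h2, map_pow]

end lift

section cyc

/-- Elements of order `p` in a finite commutative group whose order is not divisible by `p ^ 2`. -/
lemma cyc_of_card {Γ : Type u} [Group Γ] {p : ℕ} [Fact p.Prime] {G : Type} [CommGroup G]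
    [Finite G] (ρ : G →* Γ) (hc : ¬ p ^ 2 ∣ Nat.card ρ.range) (g g' : G) (hg : g ^ p = 1)
    (hg' : g' ^ p = 1) (hne : ρ g ≠ 1) : ∃ a : ℕ, ρ g' = ρ g ^ a := by
  have hp : p.Prime := Fact.out
  have hfin : Finite ρ.range := Finite.of_surjective _ ρ.rangeRestrict_surjective
  -- the subgroup of `p`-torsion
  let P : Subgroup G := tor G p
  let Q : Subgroup Γ := P.map ρ
  have hQR : Q ≤ ρ.range := by
    rintro _ ⟨x, -, rfl⟩
    exact ⟨x, rfl⟩
  have hfQ : Finite Q := Finite.of_injective (Subgroup.inclusion hQR)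
    (Subgroup.inclusion_injective hQR)
  have hQp : IsPGroup p Q := by
    rintro ⟨_, x, hx, rfl⟩
    refine ⟨1, Subtype.ext ?_⟩
    rw [pow_one]
    change ρ x ^ p = 1
    have hx' : x ^ p = 1 := hx
    rw [← map_pow, hx', map_one]
  obtain ⟨j, hj⟩ := IsPGroup.iff_card.1 hQp
  have hdvd : Nat.card Q ∣ Nat.card ρ.range := Subgroup.card_dvd_of_le hQR
  have hj1 : j ≤ 1 := by
    by_contra h
    apply hc
    refine dvd_trans ?_ hdvd
    rw [hj]
    exact pow_dvd_pow p (by omega)
  have hle : Nat.card Q ≤ p := by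
    rw [hj]
    calc p ^ j ≤ p ^ 1 := Nat.pow_le_pow_right hp.pos hj1
      _ = p := pow_one p
  have hgQ : ρ g ∈ Q := ⟨g, hg, rfl⟩
  have hgQ' : ρ g' ∈ Q := ⟨g', hg', rfl⟩
  have hord : orderOf (ρ g) = p := orderOf_eq_prime (by rw [← map_pow, hg, map_one]) hne
  have hz : Subgroup.zpowers (ρ g) ≤ Q := by
    rw [Subgroup.zpowers_le]
    exact hgQ
  have hcz : Nat.card (Subgroup.zpowers (ρ g)) = p := by rw [Nat.card_zpowers, hord]
  have heq : Subgroup.zpowers (ρ g) = Q := Subgroup.eq_of_le_of_card_ge hz (by rw [hcz]; exact hle)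
  rw [← heq] at hgQ'
  have hfo : IsOfFinOrder (ρ g) := by
    rw [← orderOf_pos_iff, hord]
    exact hp.pos
  obtain ⟨a, ha⟩ := (hfo.mem_powers_iff_mem_zpowers).2 hgQ'
  exact ⟨a, ha.symm⟩

end cyc

section roots

lemma finite_roots (k : Type u) [Field k] {m : ℕ} (hm : 0 < m) : Finite {x : k // x ^ m = 1} := by
  classical
  have h1 : {x : k | x ^ m = 1} ⊆ ((nthRoots m (1 : k)).toFinset : Set k) := by
    intro x hx
    rw [Finset.mem_coe, Multiset.mem_toFinset, mem_nthRoots hm]
    exact hx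
  exact (Set.Finite.subset (Finset.finite_toSet _) h1).to_subtype

end roots

end Pool.Agent.TH214.Q
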